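import Pool.Agent.Helper81K1.MQ.Mom

set_option autoImplicit false

/-!
# Montgomery's inequality for polynomials supported on an arithmetic progression
-/

namespace Pool.Agent.Helper81K1.MQ

open Finset

/-- Hölder's inequality between moments -/
theorem holder (S : Finset ℕ) (f : ℕ → ℝ) (hf : ∀ t, 0 ≤ f t) (p0 p1 μ : ℝ) (hp0 : 0 ≤ p0) (hp1 : 0 < p1) (hμ : 0 ≤ μ)
    (hμ1 : μ ≤ 1) (hp : 0 < (1 - μ) * p0 + μ * p1) :
    ∑ t ∈ S, f t ^ ((1 - μ) * p0 + μ * p1) ≤ (∑ t ∈ S, f t ^ p0) ^ (1 - μ) * (∑ t ∈ S, f t ^ p1) ^ μ := by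
  obtain ⟨A, hA⟩ : ∃ A, A = ∑ t ∈ S, f t ^ p0 := ⟨_, rfl⟩
  obtain ⟨B, hB⟩ : ∃ B, B = ∑ t ∈ S, f t ^ p1 := ⟨_, rfl⟩
  rw [← hA, ← hB]
  have hA0 : 0 ≤ A := by rw [hA]; exact sum_nonneg fun t _ => Real.rpow_nonneg (hf t) _
  have hB0 : 0 ≤ B := by rw [hB]; exact sum_nonneg fun t _ => Real.rpow_nonneg (hf t) _
  have hzero : (∀ t ∈ S, f t = 0) → ∑ t ∈ S, f t ^ ((1 - μ) * p0 + μ * p1) ≤ A ^ (1 - μ) * B ^ μ := by
    intro h
    have : ∑ t ∈ S, f t ^ ((1 - μ) * p0 + μ * p1) = 0 := by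
      apply sum_eq_zero
      intro t ht
      rw [h t ht, Real.zero_rpow hp.ne']
    rw [this]
    positivity
  rcases hA0.lt_or_eq with hA1 | hA1
  swap
  · apply hzero
    intro t ht
    have h1 : f t ^ p0 = 0 := by
      rw [← hA1] at hA
      exact (sum_eq_zero_iff_of_nonneg fun t _ => Real.rpow_nonneg (hf t) _).1 hA.symm t ht
    exact ((Real.rpow_eq_zero_iff_of_nonneg (hf t)).1 h1).1
  rcases hB0.lt_or_eq with hB1 | hB1
  swap
  · apply hzero
    intro t ht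
    have h1 : f t ^ p1 = 0 := by
      rw [← hB1] at hB
      exact (sum_eq_zero_iff_of_nonneg fun t _ => Real.rpow_nonneg (hf t) _).1 hB.symm t ht
    exact ((Real.rpow_eq_zero_iff_of_nonneg (hf t)).1 h1).1
  have hpt : ∀ t ∈ S, f t ^ ((1 - μ) * p0 + μ * p1) ≤
      A ^ (1 - μ) * B ^ μ * ((1 - μ) * (f t ^ p0 / A) + μ * (f t ^ p1 / B)) := by
    intro t _
    rcases (hf t).lt_or_eq with h0 | h0
    · have h1 := Real.geom_mean_le_arith_mean2_weighted (by linarith : 0 ≤ 1 - μ) hμ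
        (show 0 ≤ f t ^ p0 / A by positivity) (show 0 ≤ f t ^ p1 / B by positivity) (by ring)
      refine le_trans (le_of_eq ?_) (mul_le_mul_of_nonneg_left h1 (by positivity))
      rw [Real.div_rpow (by positivity) hA0, Real.div_rpow (by positivity) hB0, ← Real.rpow_mul h0.le,
        ← Real.rpow_mul h0.le]
      have hA2 : A ^ (1 - μ) ≠ 0 := by positivity
      have hB2 : B ^ μ ≠ 0 := by positivity
      field_simp
      rw [← Real.rpow_add h0]
    · rw [← h0, Real.zero_rpow hp.ne']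
      have h1 : 0 ≤ (0 : ℝ) ^ p0 := Real.rpow_nonneg le_rfl _
      have h2 : 0 ≤ (0 : ℝ) ^ p1 := Real.rpow_nonneg le_rfl _
      have h3 : 0 ≤ 1 - μ := by linarith
      positivity
  refine (sum_le_sum hpt).trans (le_of_eq ?_)
  rw [← mul_sum, sum_add_distrib, ← mul_sum, ← mul_sum, ← sum_div, ← sum_div, ← hA, ← hB, div_self hA1.ne',
    div_self hB1.ne']
  ring

/-- two exponential bounds -/
theorem interp (lam u v w G X Y : ℝ) (h0 : 0 ≤ lam) (h1 : lam ≤ 1) (hX : 0 ≤ X) (hY : 0 ≤ Y) (hG : 1 ≤ G)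
    (hXu : X ≤ G * Real.exp u) (hYv : Y ≤ G * Real.exp v) (h : (1 - lam) * u + lam * v ≤ w) :
    X ^ (1 - lam) * Y ^ lam ≤ G * Real.exp w := by
  have hG0 : 0 < G := by linarith
  have e1 : X ^ (1 - lam) ≤ (G * Real.exp u) ^ (1 - lam) := Real.rpow_le_rpow hX hXu (by linarith)
  have e2 : Y ^ lam ≤ (G * Real.exp v) ^ lam := Real.rpow_le_rpow hY hYv h0
  calc X ^ (1 - lam) * Y ^ lam ≤ (G * Real.exp u) ^ (1 - lam) * (G * Real.exp v) ^ lam :=
        mul_le_mul e1 e2 (by positivity) (by positivity)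
    _ = G * Real.exp ((1 - lam) * u + lam * v) := by
        rw [Real.mul_rpow hG0.le (Real.exp_pos _).le, Real.mul_rpow hG0.le (Real.exp_pos _).le, ← Real.exp_mul,
          ← Real.exp_mul]
        have : G ^ (1 - lam) * G ^ lam = G := by
          rw [← Real.rpow_add hG0]
          simp
        calc G ^ (1 - lam) * Real.exp (u * (1 - lam)) * (G ^ lam * Real.exp (v * lam))
            = (G ^ (1 - lam) * G ^ lam) * (Real.exp (u * (1 - lam)) * Real.exp (v * lam)) := by ring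
          _ = G * Real.exp ((1 - lam) * u + lam * v) := by
              rw [this, ← Real.exp_add]
              congr 2
              ring
    _ ≤ _ := by
        apply mul_le_mul_of_nonneg_left _ hG0.le
        exact Real.exp_le_exp.2 h

/-- the exponent of the number of terms -/
noncomputable def th (β : ℝ) : ℝ := (β + Real.sqrt (3 - 2 * β)) / 2

theorem th_ineq (β lam : ℝ) (hβ : β ≤ 1) (h0 : 0 ≤ lam) :
    (1 + 2 * lam) * th β ≤ 1 + lam + lam ^ 2 + lam * β := by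
  unfold th
  obtain ⟨r, hr⟩ : ∃ r, r = Real.sqrt (3 - 2 * β) := ⟨_, rfl⟩
  rw [← hr]
  have hr2 : r ^ 2 = 3 - 2 * β := by rw [hr]; exact Real.sq_sqrt (by linarith)
  nlinarith [sq_nonneg (1 + 2 * lam - r)]

theorem th_le (β : ℝ) (h0 : 0 ≤ β) (h : β ≤ 1 / 9) : th β ≤ 8 / 9 := by
  unfold th
  have h1 : Real.sqrt (3 - 2 * β) ≤ 16 / 9 - β := by
    rw [Real.sqrt_le_left (by linarith)]
    nlinarith
  linarith

theorem le_th (β : ℝ) (h : 1 / 9 ≤ β) (h1 : β ≤ 1) : 1 - β ≤ th β := by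
  unfold th
  have h1 : 2 - 3 * β ≤ Real.sqrt (3 - 2 * β) := by
    rcases le_total 0 (2 - 3 * β) with h2 | h2
    · apply Real.le_sqrt_of_sq_le
      nlinarith
    · have := Real.sqrt_nonneg (3 - 2 * β)
      linarith
  linarith

/-- the bound at the critical exponent -/
theorem crit (Q : ℕ) (δ : ℝ) (hδ : 0 < δ) : ∃ C : ℝ, 1 ≤ C ∧ ∀ (N T x k H : ℕ) (b : ℕ → ℂ) (β τ : ℝ), 2 ≤ N → N ≤ T →
    1 ≤ k → 1 ≤ H → N ≤ x → x + k * (H - 1) ≤ 2 * N → k * H ≤ 2 * N → 0 ≤ β → β ≤ 1 → (N : ℝ) ^ β ≤ k →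
    (H : ℝ) ≤ 2 * (N : ℝ) ^ th β → (∀ n, ‖b n‖ ≤ 1) → Sup N x k H b → (T : ℝ) = (N : ℝ) ^ τ → τ ≤ Q →
    ∑ t ∈ Icc 1 T, ‖DD N b t‖ ^ (2 * τ) ≤ C * (N : ℝ) ^ δ * (N : ℝ) ^ (2 * τ) := by
  classical
  choose Cm hCm1 hCm using fun κ => mom δ hδ κ
  obtain ⟨C4, hC41, hC4⟩ := mom4 δ hδ
  obtain ⟨C0, hC0⟩ : ∃ C0 : ℝ, C0 = C4 + ∑ κ ∈ range (Q + 2), Cm κ := ⟨_, rfl⟩
  have hsum0 : 0 ≤ ∑ κ ∈ range (Q + 2), Cm κ := sum_nonneg fun κ _ => by linarith [hCm1 κ]
  have hC4le : C4 ≤ C0 := by linarith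
  have hCmle : ∀ κ, κ < Q + 2 → Cm κ ≤ C0 := by
    intro κ hκ
    have := single_le_sum (f := Cm) (fun κ _ => by linarith [hCm1 κ]) (mem_range.2 hκ)
    linarith
  have hC01 : 1 ≤ C0 := by linarith
  refine ⟨3 * C0 * Real.exp (Q + 4), by
    have : 1 ≤ Real.exp (Q + 4) := Real.one_le_exp (by positivity)
    nlinarith, ?_⟩
  intro N T x k H b β τ hN hNT hk hH hx hxH hkH hβ0 hβ1 hβk hHθ hb1 hb hTτ hτQ
  have hN0 : (0 : ℝ) < N := by exact_mod_cast (by omega : 0 < N)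
  have hN1 : (1 : ℝ) < N := by exact_mod_cast (by omega : 1 < N)
  have hT0 : (0 : ℝ) < T := by exact_mod_cast (by omega : 0 < T)
  have hk0 : (0 : ℝ) < k := by exact_mod_cast (by omega : 0 < k)
  have hH0 : (0 : ℝ) < H := by exact_mod_cast (by omega : 0 < H)
  have hNT' : (N : ℝ) ≤ T := by exact_mod_cast hNT
  obtain ⟨l, hl⟩ : ∃ l, l = Real.log N := ⟨_, rfl⟩
  obtain ⟨h, hh⟩ : ∃ h, h = Real.log H := ⟨_, rfl⟩
  obtain ⟨g, hg⟩ : ∃ g, g = Real.log k := ⟨_, rfl⟩
  have hl0 : 0 < l := by rw [hl]; exact Real.log_pos hN1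
  have hh0 : 0 ≤ h := by rw [hh]; exact Real.log_natCast_nonneg H
  have hg0 : 0 ≤ g := by rw [hg]; exact Real.log_natCast_nonneg k
  have hNe : (N : ℝ) = Real.exp l := by rw [hl, Real.exp_log hN0]
  have hHe : (H : ℝ) = Real.exp h := by rw [hh, Real.exp_log hH0]
  have hke : (k : ℝ) = Real.exp g := by rw [hg, Real.exp_log hk0]
  have hpow : ∀ y : ℝ, (N : ℝ) ^ y = Real.exp (y * l) := by
    intro y
    rw [Real.rpow_def_of_pos hN0, ← hl, mul_comm]
  have hTe : (T : ℝ) = Real.exp (τ * l) := by rw [hTτ, hpow]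
  have hτ1 : 1 ≤ τ := by
    have h1 : Real.exp l ≤ Real.exp (τ * l) := by rw [← hTe, ← hNe]; exact hNT'
    have h2 := Real.exp_le_exp.1 h1
    by_contra hc
    rw [not_le] at hc
    nlinarith
  have hgβ : β * l ≤ g := by
    rw [hpow, hke] at hβk
    exact Real.exp_le_exp.1 hβk
  have hlog2 : Real.log 2 < 0.6931471808 := Real.log_two_lt_d9
  have hlog2' : 0 < Real.log 2 := Real.log_pos (by norm_num)
  have hhθ : h ≤ th β * l + Real.log 2 := by
    have h1 : Real.exp h ≤ Real.exp (th β * l + Real.log 2) := by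
      rw [Real.exp_add, Real.exp_log (by norm_num), ← hpow, ← hHe]
      linarith
    exact Real.exp_le_exp.1 h1
  have hhg : h + g ≤ l + Real.log 2 := by
    have h1 : Real.exp (h + g) ≤ Real.exp (l + Real.log 2) := by
      rw [Real.exp_add, Real.exp_add, Real.exp_log (by norm_num), ← hNe, ← hHe, ← hke]
      have : (k : ℝ) * H ≤ 2 * N := by exact_mod_cast hkH
      linarith
    exact Real.exp_le_exp.1 h1
  have hh89 : h ≤ 8 / 9 * l + Real.log 2 := by
    rcases le_total β (1 / 9) with hβ9 | hβ9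
    · have := th_le β hβ0 hβ9
      nlinarith
    · nlinarith
  obtain ⟨κ, hκ⟩ : ∃ κ : ℕ, κ = ⌊τ⌋₊ := ⟨_, rfl⟩
  have hκ1 : 1 ≤ κ := by
    rw [hκ]
    exact Nat.le_floor (by exact_mod_cast hτ1)
  have hκτ : (κ : ℝ) ≤ τ := by rw [hκ]; exact Nat.floor_le (by linarith)
  have hτκ : τ < κ + 1 := by rw [hκ]; exact Nat.lt_floor_add_one τ
  have hκQ : κ ≤ Q := by
    have : (κ : ℝ) ≤ Q := by linarith
    exact_mod_cast this
  obtain ⟨lam, hlam⟩ : ∃ lam : ℝ, lam = τ - κ := ⟨_, rfl⟩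
  have hlam0 : 0 ≤ lam := by linarith
  have hlam1 : lam ≤ 1 := by linarith
  have hτe : τ = κ + lam := by linarith
  have hκr : (1 : ℝ) ≤ κ := by exact_mod_cast hκ1
  obtain ⟨X, hX⟩ : ∃ X : ℝ, X = ∑ t ∈ Icc 1 T, ‖DD N b t‖ ^ (2 * κ) := ⟨_, rfl⟩
  obtain ⟨Y, hY⟩ : ∃ Y : ℝ, Y = ∑ t ∈ Icc 1 T, ‖DD N b t‖ ^ (2 * (κ + 1)) := ⟨_, rfl⟩
  have hX0 : 0 ≤ X := by rw [hX]; positivity
  have hY0 : 0 ≤ Y := by rw [hY]; positivity
  have hhol : ∑ t ∈ Icc 1 T, ‖DD N b t‖ ^ (2 * τ) ≤ X ^ (1 - lam) * Y ^ lam := by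
    have h1 := holder (Icc 1 T) (fun t => ‖DD N b t‖) (fun t => norm_nonneg _) ((2 * κ : ℕ) : ℝ)
      ((2 * (κ + 1) : ℕ) : ℝ) lam (Nat.cast_nonneg _) (by positivity) hlam0 hlam1 (by
        push_cast
        nlinarith)
    have h2 : (1 - lam) * ((2 * κ : ℕ) : ℝ) + lam * ((2 * (κ + 1) : ℕ) : ℝ) = 2 * τ := by
      rw [hτe]
      push_cast
      ring
    rw [h2] at h1
    refine h1.trans (le_of_eq ?_)
    rw [hX, hY]
    congr 2
    · apply sum_congr rfl
      intro t _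
      rw [Real.rpow_natCast]
    · apply sum_congr rfl
      intro t _
      rw [Real.rpow_natCast]
  obtain ⟨G, hG⟩ : ∃ G : ℝ, G = 3 * C0 * (N : ℝ) ^ δ := ⟨_, rfl⟩
  have hNδ : 1 ≤ (N : ℝ) ^ δ := Real.one_le_rpow hN1.le hδ.le
  have hG1 : 1 ≤ G := by rw [hG]; nlinarith
  have hG0 : 0 < G := by linarith
  have hNκ : (N : ℝ) ^ κ = Real.exp (κ * l) := by rw [hNe, ← Real.exp_nat_mul]
  have hHκ : (H : ℝ) ^ κ = Real.exp (κ * h) := by rw [hHe, ← Real.exp_nat_mul]
  have hXb : X ≤ G * Real.exp (τ * l + κ * h) := by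
    have h1 := hCm κ N T x k H b (by omega) (by omega) hb1 hb
    rw [← hX] at h1
    refine h1.trans ?_
    have h2 : (T : ℝ) + (N : ℝ) ^ κ ≤ 3 * Real.exp (τ * l) := by
      have : (N : ℝ) ^ κ ≤ Real.exp (τ * l) := by
        rw [hNκ]
        apply Real.exp_le_exp.2
        nlinarith
      rw [hTe]
      have := Real.exp_pos (τ * l)
      linarith
    calc Cm κ * (N : ℝ) ^ δ * (T + (N : ℝ) ^ κ) * (H : ℝ) ^ κ
        ≤ C0 * (N : ℝ) ^ δ * (3 * Real.exp (τ * l)) * (H : ℝ) ^ κ := by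
          apply mul_le_mul_of_nonneg_right _ (by positivity)
          apply mul_le_mul _ h2 (by positivity) (by positivity)
          exact mul_le_mul_of_nonneg_right (hCmle κ (by omega)) (by positivity)
      _ = _ := by
          rw [hG, hHκ, Real.exp_add]
          ring
  have hfin : ∀ v : ℝ, Y ≤ G * Real.exp v → (1 - lam) * (τ * l + κ * h) + lam * v ≤ 2 * τ * l + (Q + 4) →
      ∑ t ∈ Icc 1 T, ‖DD N b t‖ ^ (2 * τ) ≤ 3 * C0 * Real.exp (Q + 4) * (N : ℝ) ^ δ * (N : ℝ) ^ (2 * τ) := by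
    intro v hv hw
    refine hhol.trans ((interp lam _ v _ G X Y hlam0 hlam1 hX0 hY0 hG1 hXb hv hw).trans (le_of_eq ?_))
    rw [hG, hpow (2 * τ), Real.exp_add]
    ring
  have hQ0 : (0 : ℝ) ≤ Q := Nat.cast_nonneg _
  have hκQ' : (κ : ℝ) ≤ Q := by exact_mod_cast hκQ
  rcases Nat.lt_or_ge 1 κ with hκ2 | hκ2
  · -- `κ ≥ 2`
    have hκ2r : (2 : ℝ) ≤ κ := by exact_mod_cast hκ2
    apply hfin ((κ + 1) * (l + h))
    · have h1 := hCm (κ + 1) N T x k H b (by omega) (by omega) hb1 hb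
      rw [← hY] at h1
      refine h1.trans ?_
      have hN2 : (N : ℝ) ^ (κ + 1) = Real.exp ((κ + 1) * l) := by
        rw [hNe, ← Real.exp_nat_mul]
        push_cast
        rfl
      have hH2 : (H : ℝ) ^ (κ + 1) = Real.exp ((κ + 1) * h) := by
        rw [hHe, ← Real.exp_nat_mul]
        push_cast
        rfl
      have h2 : (T : ℝ) + (N : ℝ) ^ (κ + 1) ≤ 3 * Real.exp ((κ + 1) * l) := by
        have : (T : ℝ) ≤ Real.exp ((κ + 1) * l) := by
          rw [hTe]
          apply Real.exp_le_exp.2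
          nlinarith
        rw [hN2]
        have := Real.exp_pos ((κ + 1) * l)
        linarith
      calc Cm (κ + 1) * (N : ℝ) ^ δ * (T + (N : ℝ) ^ (κ + 1)) * (H : ℝ) ^ (κ + 1)
          ≤ C0 * (N : ℝ) ^ δ * (3 * Real.exp ((κ + 1) * l)) * (H : ℝ) ^ (κ + 1) := by
            apply mul_le_mul_of_nonneg_right _ (by positivity)
            apply mul_le_mul _ h2 (by positivity) (by positivity)
            exact mul_le_mul_of_nonneg_right (hCmle (κ + 1) (by omega)) (by positivity)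
        _ = _ := by
            rw [hG, hH2, mul_add, Real.exp_add]
            ring
    · have e1 : (1 - lam) * (τ * l + κ * h) + lam * ((κ + 1) * (l + h)) =
          (κ + 2 * lam - lam ^ 2) * l + (κ + lam) * h := by
        rw [hτe]
        ring
      rw [e1, hτe]
      have e2 : (κ + lam) * h ≤ (κ + lam) * (8 / 9 * l + Real.log 2) :=
        mul_le_mul_of_nonneg_left hh89 (by linarith)
      have e3 : (κ + lam) * Real.log 2 ≤ Q + 4 := by nlinarith
      have e4 : (κ + 2 * lam - lam ^ 2) + (κ + lam) * (8 / 9) ≤ 2 * (κ + lam) := by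
        nlinarith [sq_nonneg (9 * lam - 4)]
      nlinarith
  · have hκe : κ = 1 := by omega
    subst hκe
    have hY4 : Y ≤ C0 * (N : ℝ) ^ δ * (Real.exp (τ * l + 2 * h) + Real.exp (l + 3 * h - g) +
        Real.exp (2 * l + h - 2 * g)) := by
      have h1 := hC4 N T x k H b (by omega) hNT hk hH hx hxH hkH hb1 hb
      have h2 : Y = ∑ t ∈ Icc 1 T, ‖DD N b t‖ ^ 4 := by rw [hY]
      rw [h2]
      refine h1.trans ?_
      have e1 : (T : ℝ) * (H : ℝ) ^ 2 = Real.exp (τ * l + 2 * h) := by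
        rw [Real.exp_add, ← hTe, hHe, ← Real.exp_nat_mul]
        push_cast
        rfl
      have e2 : (N : ℝ) * (H : ℝ) ^ 3 / k = Real.exp (l + 3 * h - g) := by
        rw [Real.exp_sub, Real.exp_add, ← hNe, ← hke, hHe, ← Real.exp_nat_mul]
        push_cast
        rfl
      have e3 : (N : ℝ) ^ 2 * H / (k : ℝ) ^ 2 = Real.exp (2 * l + h - 2 * g) := by
        rw [Real.exp_sub, Real.exp_add, ← hHe, hNe, hke, ← Real.exp_nat_mul, ← Real.exp_nat_mul]
        push_cast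
        rfl
      rw [e1, e2, e3]
      apply mul_le_mul_of_nonneg_right _ (by positivity)
      exact mul_le_mul_of_nonneg_right hC4le (by positivity)
    -- the largest exponent
    obtain ⟨v, hv⟩ : ∃ v, v = max (max (τ * l + 2 * h) (l + 3 * h - g)) (2 * l + h - 2 * g) := ⟨_, rfl⟩
    have hv1 : τ * l + 2 * h ≤ v := by rw [hv]; exact (le_max_left _ _).trans (le_max_left _ _)
    have hv2 : l + 3 * h - g ≤ v := by rw [hv]; exact (le_max_right _ _).trans (le_max_left _ _)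
    have hv3 : 2 * l + h - 2 * g ≤ v := by rw [hv]; exact le_max_right _ _
    have hcases : v = τ * l + 2 * h ∨ v = l + 3 * h - g ∨ v = 2 * l + h - 2 * g := by
      rw [hv]
      rcases max_choice (max (τ * l + 2 * h) (l + 3 * h - g)) (2 * l + h - 2 * g) with h1 | h1
      · rw [h1]
        rcases max_choice (τ * l + 2 * h) (l + 3 * h - g) with h2 | h2
        · left; exact h2
        · right; left; exact h2
      · right; right; exact h1
    apply hfin v
    · refine hY4.trans ?_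
      rw [hG]
      have e1 := Real.exp_le_exp.2 hv1
      have e2 := Real.exp_le_exp.2 hv2
      have e3 := Real.exp_le_exp.2 hv3
      calc C0 * (N : ℝ) ^ δ * (Real.exp (τ * l + 2 * h) + Real.exp (l + 3 * h - g) +
            Real.exp (2 * l + h - 2 * g)) ≤ C0 * (N : ℝ) ^ δ * (3 * Real.exp v) := by
            apply mul_le_mul_of_nonneg_left _ (by positivity)
            linarith
        _ = _ := by ring
    · push_cast at hτe ⊢
      rcases hcases with h1 | h1 | h1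
      · rw [h1, hτe]
        have e1 : (1 - lam) * ((1 + lam) * l + 1 * h) + lam * ((1 + lam) * l + 2 * h) =
            (1 + lam) * l + (1 + lam) * h := by ring
        rw [e1]
        have e2 : (1 + lam) * h ≤ (1 + lam) * (8 / 9 * l + Real.log 2) :=
          mul_le_mul_of_nonneg_left hh89 (by linarith)
        nlinarith
      · rw [h1, hτe]
        have e1 : (1 - lam) * ((1 + lam) * l + 1 * h) + lam * (l + 3 * h - g) =
            (1 + lam - lam ^ 2) * l + (1 + 2 * lam) * h - lam * g := by ring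
        rw [e1]
        have e2 : (1 + 2 * lam) * h ≤ (1 + 2 * lam) * (th β * l + Real.log 2) :=
          mul_le_mul_of_nonneg_left hhθ (by linarith)
        have e3 := mul_le_mul_of_nonneg_right (th_ineq β lam hβ1 hlam0) hl0.le
        have e4 : lam * (β * l) ≤ lam * g := mul_le_mul_of_nonneg_left hgβ hlam0
        nlinarith
      · rw [h1, hτe]
        have e1 : (1 - lam) * ((1 + lam) * l + 1 * h) + lam * (2 * l + h - 2 * g) =
            (1 + 2 * lam - lam ^ 2) * l + h - 2 * lam * g := by ring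
        rw [e1]
        have e2 : 0 ≤ lam * g := mul_nonneg hlam0 hg0
        have e3 : 0 ≤ lam ^ 2 * l := by positivity
        nlinarith

end Pool.Agent.Helper81K1.MQ
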