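import Pool.Agent.H376R2.MR.Mv

set_option autoImplicit false

/-!
# The Fejér inequality for a finite family of frequencies
-/

namespace Pool.Agent.Helper81K1.MQ

open Finset Pool.Agent.H376R2.MR

/-- mean squares of trigonometric polynomials with arbitrary frequencies -/
theorem fam {ι : Type*} (s : Finset ι) (c : ι → ℂ) (x : ι → ℝ) (K : ℕ) (hK : 1 ≤ K) :
    ∑ k ∈ FK K, ‖∑ i ∈ s, c i * ch k (x i)‖ ^ 2 ≤
      2 * ∑ i ∈ s, ∑ j ∈ s, ‖c i‖ * ‖c j‖ * Fj (2 * K) (x i - x j) := by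
  have hK0 : (0 : ℝ) < K := by exact_mod_cast hK
  obtain ⟨P, hP⟩ : ∃ P : ℤ → ℂ, P = fun k => ∑ i ∈ s, c i * ch k (x i) := ⟨_, rfl⟩
  obtain ⟨E, hE⟩ : ∃ E : ℝ, E = ∑ k ∈ FK (2 * K), (1 - |(k : ℝ)| / ((2 * K : ℕ) : ℝ)) * ‖P k‖ ^ 2 := ⟨_, rfl⟩
  have h1 : ∑ k ∈ FK K, ‖P k‖ ^ 2 ≤ 2 * E := by
    rw [hE, Finset.mul_sum]
    calc ∑ k ∈ FK K, ‖P k‖ ^ 2
        ≤ ∑ k ∈ FK K, 2 * ((1 - |(k : ℝ)| / ((2 * K : ℕ) : ℝ)) * ‖P k‖ ^ 2) := by
          refine Finset.sum_le_sum fun k hk => ?_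
          unfold FK at hk
          rw [Finset.mem_Ioo] at hk
          have habs : |(k : ℝ)| ≤ K := by
            have : |k| ≤ (K : ℤ) := by
              rw [abs_le]
              constructor <;> omega
            exact_mod_cast this
          have h2 : |(k : ℝ)| / ((2 * K : ℕ) : ℝ) ≤ 1 / 2 := by
            push_cast
            rw [div_le_div_iff₀ (by positivity) (by norm_num)]
            linarith
          have h3 : 0 ≤ ‖P k‖ ^ 2 := by positivity
          nlinarith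
      _ ≤ ∑ k ∈ FK (2 * K), 2 * ((1 - |(k : ℝ)| / ((2 * K : ℕ) : ℝ)) * ‖P k‖ ^ 2) := by
          refine Finset.sum_le_sum_of_subset_of_nonneg ?_ ?_
          · intro k hk
            unfold FK at hk ⊢
            rw [Finset.mem_Ioo] at hk ⊢
            push_cast
            constructor <;> omega
          · intro k hk _
            unfold FK at hk
            rw [Finset.mem_Ioo] at hk
            have habs : |(k : ℝ)| ≤ ((2 * K : ℕ) : ℝ) := by
              have : |k| ≤ ((2 * K : ℕ) : ℤ) := by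
                rw [abs_le]
                constructor <;> omega
              exact_mod_cast this
            have h2 : |(k : ℝ)| / ((2 * K : ℕ) : ℝ) ≤ 1 := by
              apply div_le_one_of_le₀ habs
              positivity
            have h3 : 0 ≤ ‖P k‖ ^ 2 := by positivity
            have h4 : 0 ≤ 1 - |(k : ℝ)| / ((2 * K : ℕ) : ℝ) := by linarith
            positivity
  have h2 : (E : ℂ) = ∑ i ∈ s, ∑ j ∈ s, c i * (starRingEnd ℂ) (c j) * (Fj (2 * K) (x i - x j) : ℂ) := by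
    rw [hE, Complex.ofReal_sum]
    have h1 : ∀ k ∈ FK (2 * K), (((1 - |(k : ℝ)| / ((2 * K : ℕ) : ℝ)) * ‖P k‖ ^ 2 : ℝ) : ℂ) =
        ∑ i ∈ s, ∑ j ∈ s, c i * (starRingEnd ℂ) (c j) * (((1 - |(k : ℝ)| / ((2 * K : ℕ) : ℝ) : ℝ) : ℂ) *
          Complex.exp (-((k * (x i - x j) : ℝ) : ℂ) * Complex.I)) := by
      intro k _
      have h2 : (((‖P k‖ ^ 2 : ℝ)) : ℂ) = P k * (starRingEnd ℂ) (P k) := by
        rw [Complex.mul_conj, Complex.normSq_eq_norm_sq]
      rw [Complex.ofReal_mul, h2, hP]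
      dsimp only
      rw [map_sum, Finset.sum_mul_sum, Finset.mul_sum]
      refine Finset.sum_congr rfl fun i _ => ?_
      rw [Finset.mul_sum]
      refine Finset.sum_congr rfl fun j _ => ?_
      rw [map_mul]
      unfold ch
      rw [← Complex.exp_conj]
      have h3 : Complex.exp (-((k * (x i - x j) : ℝ) : ℂ) * Complex.I) =
          Complex.exp (-((k * x i : ℝ) : ℂ) * Complex.I) *
          Complex.exp ((starRingEnd ℂ) (-((k * x j : ℝ) : ℂ) * Complex.I)) := by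
        rw [← Complex.exp_add]
        congr 1
        rw [map_mul, map_neg, Complex.conj_I, Complex.conj_ofReal]
        push_cast
        ring
      rw [h3]
      ring
    rw [Finset.sum_congr rfl h1, Finset.sum_comm]
    refine Finset.sum_congr rfl fun i _ => ?_
    rw [Finset.sum_comm]
    refine Finset.sum_congr rfl fun j _ => ?_
    rw [← Finset.mul_sum, fej_exp]
  have h3 : E ≤ ∑ i ∈ s, ∑ j ∈ s, ‖c i‖ * ‖c j‖ * Fj (2 * K) (x i - x j) := by
    have h4 : E ≤ ‖(E : ℂ)‖ := by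
      rw [Complex.norm_real, Real.norm_eq_abs]
      exact le_abs_self _
    refine h4.trans ?_
    rw [h2]
    refine (norm_sum_le _ _).trans (Finset.sum_le_sum fun m _ => ?_)
    refine (norm_sum_le _ _).trans (Finset.sum_le_sum fun n _ => ?_)
    rw [norm_mul, norm_mul, RCLike.norm_conj, Complex.norm_real, Real.norm_eq_abs,
      abs_of_nonneg (Fj_nonneg _ _)]
  have h5 : ∑ k ∈ FK K, ‖∑ i ∈ s, c i * ch k (x i)‖ ^ 2 = ∑ k ∈ FK K, ‖P k‖ ^ 2 := by rw [hP]
  rw [h5]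
  linarith

/-- the weight -/
noncomputable def wt (K N : ℕ) (x : ℝ) : ℝ := 4 * K / (1 + (2 * K * x / (13 * (N : ℝ) ^ 2)) ^ 2)

theorem wt_nonneg (K N : ℕ) (x : ℝ) : 0 ≤ wt K N x := by
  unfold wt
  positivity

theorem wt_le (K N : ℕ) (x : ℝ) : wt K N x ≤ 4 * K := by
  unfold wt
  have hK0 : (0 : ℝ) ≤ K := Nat.cast_nonneg _
  apply div_le_self (by positivity)
  have := sq_nonneg (2 * K * x / (13 * (N : ℝ) ^ 2))
  linarith

theorem wt_le_inv (K N : ℕ) (hK : 1 ≤ K) (hN : 1 ≤ N) (x : ℝ) (hx : x ≠ 0) : wt K N x ≤ 13 * (N : ℝ) ^ 2 / |x| := by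
  unfold wt
  have hK0 : (0 : ℝ) < K := by exact_mod_cast hK
  have hN0 : (0 : ℝ) < N := by exact_mod_cast hN
  have hx0 : 0 < |x| := abs_pos.2 hx
  obtain ⟨y, hy⟩ : ∃ y, y = 2 * K * |x| / (13 * (N : ℝ) ^ 2) := ⟨_, rfl⟩
  have hy0 : 0 < y := by rw [hy]; positivity
  have h1 : (2 * K * x / (13 * (N : ℝ) ^ 2)) ^ 2 = y ^ 2 := by
    rw [hy, div_pow, div_pow, mul_pow, mul_pow _ |x|, sq_abs]
  rw [h1]
  have h2 : 13 * (N : ℝ) ^ 2 / |x| = 2 * K / y := by
    rw [hy]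
    field_simp
  rw [h2, div_le_div_iff₀ (by positivity) hy0]
  nlinarith [sq_nonneg (y - 1)]

theorem wt_le_sq (K N : ℕ) (hK : 1 ≤ K) (hN : 1 ≤ N) (x : ℝ) (hx : x ≠ 0) :
    wt K N x ≤ 169 * (N : ℝ) ^ 4 / (K * x ^ 2) := by
  unfold wt
  have hK0 : (0 : ℝ) < K := by exact_mod_cast hK
  have hN0 : (0 : ℝ) < N := by exact_mod_cast hN
  have hx0 : 0 < x ^ 2 := by positivity
  have h1 : (2 * K * x / (13 * (N : ℝ) ^ 2)) ^ 2 = 4 * K ^ 2 * x ^ 2 / (169 * (N : ℝ) ^ 4) := by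
    rw [div_pow]
    ring
  have h2 : 169 * (N : ℝ) ^ 4 / (K * x ^ 2) = 4 * K / (4 * K ^ 2 * x ^ 2 / (169 * (N : ℝ) ^ 4)) := by
    field_simp
  rw [h1, h2]
  apply div_le_div_of_nonneg_left (by positivity) (by positivity)
  linarith

theorem wt_anti (K N : ℕ) (x y : ℝ) (h : |x| ≤ |y|) : wt K N y ≤ wt K N x := by
  unfold wt
  have hK0 : (0 : ℝ) ≤ K := Nat.cast_nonneg _
  apply div_le_div_of_nonneg_left (by positivity) (by positivity)
  have h1 : (2 * K * x / (13 * (N : ℝ) ^ 2)) ^ 2 ≤ (2 * K * y / (13 * (N : ℝ) ^ 2)) ^ 2 := by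
    apply sq_le_sq.2
    rw [abs_div, abs_div, abs_mul, abs_mul (2 * (K : ℝ)) y]
    apply div_le_div_of_nonneg_right _ (abs_nonneg _)
    exact mul_le_mul_of_nonneg_left h (abs_nonneg _)
  linarith

/-- the Fejér kernel at the quotient of two products -/
theorem Fj_wt (K N : ℕ) (hK : 1 ≤ K) (hN : 1 ≤ N) (a b c d : ℕ) (ha : N ≤ a) (ha' : a ≤ 2 * N) (hb : N ≤ b)
    (hb' : b ≤ 2 * N) (hc : N ≤ c) (hc' : c ≤ 2 * N) (hd : N ≤ d) (hd' : d ≤ 2 * N) :
    Fj (2 * K) ((Real.log a + Real.log b) - (Real.log c + Real.log d)) ≤ wt K N ((a : ℝ) * b - c * d) := by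
  have hK0 : (0 : ℝ) < K := by exact_mod_cast hK
  have hN0 : (0 : ℝ) < N := by exact_mod_cast hN
  have ha0 : (0 : ℝ) < a := by exact_mod_cast (by omega : 0 < a)
  have hb0 : (0 : ℝ) < b := by exact_mod_cast (by omega : 0 < b)
  have hc0 : (0 : ℝ) < c := by exact_mod_cast (by omega : 0 < c)
  have hd0 : (0 : ℝ) < d := by exact_mod_cast (by omega : 0 < d)
  obtain ⟨p, hp⟩ : ∃ p : ℝ, p = a * b := ⟨_, rfl⟩
  obtain ⟨q, hq⟩ : ∃ q : ℝ, q = c * d := ⟨_, rfl⟩
  have haN : (N : ℝ) ≤ a := by exact_mod_cast ha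
  have hbN : (N : ℝ) ≤ b := by exact_mod_cast hb
  have hcN : (N : ℝ) ≤ c := by exact_mod_cast hc
  have hdN : (N : ℝ) ≤ d := by exact_mod_cast hd
  have haN' : (a : ℝ) ≤ 2 * N := by exact_mod_cast ha'
  have hbN' : (b : ℝ) ≤ 2 * N := by exact_mod_cast hb'
  have hcN' : (c : ℝ) ≤ 2 * N := by exact_mod_cast hc'
  have hdN' : (d : ℝ) ≤ 2 * N := by exact_mod_cast hd'
  have hp1 : (N : ℝ) ^ 2 ≤ p := by
    rw [hp, pow_two]
    exact mul_le_mul haN hbN hN0.le ha0.le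
  have hq1 : (N : ℝ) ^ 2 ≤ q := by
    rw [hq, pow_two]
    exact mul_le_mul hcN hdN hN0.le hc0.le
  have hp2 : p ≤ 4 * (N : ℝ) ^ 2 := by
    rw [hp]
    calc (a : ℝ) * b ≤ (2 * N) * (2 * N) := mul_le_mul haN' hbN' hb0.le (by positivity)
      _ = _ := by ring
  have hq2 : q ≤ 4 * (N : ℝ) ^ 2 := by
    rw [hq]
    calc (c : ℝ) * d ≤ (2 * N) * (2 * N) := mul_le_mul hcN' hdN' hd0.le (by positivity)
      _ = _ := by ring
  have hp0 : 0 < p := by rw [hp]; positivity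
  have hq0 : 0 < q := by rw [hq]; positivity
  rw [← Real.log_mul ha0.ne' hb0.ne', ← Real.log_mul hc0.ne' hd0.ne', ← hp, ← hq]
  -- the logarithm of the quotient
  have key : ∀ p q : ℝ, (N : ℝ) ^ 2 ≤ p → (N : ℝ) ^ 2 ≤ q → p ≤ 4 * (N : ℝ) ^ 2 → q ≤ 4 * (N : ℝ) ^ 2 → q ≤ p →
      (p - q) / (4 * (N : ℝ) ^ 2) ≤ Real.log p - Real.log q ∧ Real.log p - Real.log q ≤ 3 := by
    intro p q hp1 hq1 hp2 hq2 hqp
    have hN2 : (0 : ℝ) < (N : ℝ) ^ 2 := by positivity
    have hp0 : 0 < p := by linarith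
    have hq0 : 0 < q := by linarith
    constructor
    · have h1 := Real.one_sub_inv_le_log_of_pos (show (0 : ℝ) < p / q by positivity)
      rw [Real.log_div hp0.ne' hq0.ne', inv_div] at h1
      have h2 : (p - q) / (4 * (N : ℝ) ^ 2) ≤ (p - q) / p :=
        div_le_div_of_nonneg_left (by linarith) hp0 hp2
      have h3 : (p - q) / p = 1 - q / p := by field_simp
      linarith
    · rw [← Real.log_div hp0.ne' hq0.ne']
      have h1 := Real.log_le_sub_one_of_pos (show (0 : ℝ) < p / q by positivity)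
      have h2 : p / q ≤ 4 := by
        rw [div_le_iff₀ hq0]
        linarith
      linarith
  have habs : |p - q| / (4 * (N : ℝ) ^ 2) ≤ |Real.log p - Real.log q| ∧ |Real.log p - Real.log q| ≤ 3 := by
    rcases le_total q p with h | h
    · obtain ⟨h1, h2⟩ := key p q hp1 hq1 hp2 hq2 h
      have h3 : Real.log q ≤ Real.log p := Real.log_le_log hq0 h
      rw [abs_of_nonneg (by linarith), abs_of_nonneg (by linarith)]
      exact ⟨h1, h2⟩
    · obtain ⟨h1, h2⟩ := key q p hq1 hp1 hq2 hp2 h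
      have h3 : Real.log p ≤ Real.log q := Real.log_le_log hp0 h
      rw [abs_sub_comm, abs_sub_comm (Real.log p), abs_of_nonneg (by linarith), abs_of_nonneg (by linarith)]
      exact ⟨h1, h2⟩
  obtain ⟨u, hu⟩ : ∃ u, u = Real.log p - Real.log q := ⟨_, rfl⟩
  rw [← hu] at habs ⊢
  have h2K : 1 ≤ 2 * K := by omega
  have hF0 := Fj_nonneg (2 * K) u
  have hF1 := Fj_le (2 * K) u
  push_cast at hF1
  -- compare
  have hpi := Real.pi_pos
  have hpi4 : Real.pi < 3.15 := by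
    have := Real.pi_lt_d2
    linarith
  have hpi3 : 3 < Real.pi := Real.pi_gt_three
  have hF2 : Fj (2 * K) u * (1 + (2 * K * u / Real.pi) ^ 2) ≤ 4 * K := by
    rcases eq_or_ne u 0 with h0 | h0
    · rw [h0]
      rw [h0] at hF1 hF0
      have : (2 * (K : ℝ) * 0 / Real.pi) ^ 2 = 0 := by simp
      rw [this]
      linarith
    · have h1 := Fj_le_sq h2K h0 (by linarith [habs.2])
      push_cast at h1
      have hu2 : 0 < u ^ 2 := by positivity
      have h2 : Fj (2 * K) u * (2 * K * u / Real.pi) ^ 2 ≤ 2 * K := by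
        calc Fj (2 * K) u * (2 * K * u / Real.pi) ^ 2
            ≤ Real.pi ^ 2 / (2 * K * u ^ 2) * (2 * K * u / Real.pi) ^ 2 :=
              mul_le_mul_of_nonneg_right h1 (sq_nonneg _)
          _ = 2 * K := by
              field_simp
      linarith
  unfold wt
  rw [le_div_iff₀ (by positivity)]
  refine le_trans ?_ hF2
  apply mul_le_mul_of_nonneg_left _ hF0
  have h5 : (2 * K * (p - q) / (13 * (N : ℝ) ^ 2)) ^ 2 ≤ (2 * K * u / Real.pi) ^ 2 := by
    apply sq_le_sq.2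
    rw [abs_div, abs_div, abs_mul, abs_mul (2 * (K : ℝ)) u, abs_of_pos hpi,
      abs_of_pos (show (0 : ℝ) < 13 * (N : ℝ) ^ 2 by positivity)]
    have h6 : |p - q| ≤ |u| * (4 * (N : ℝ) ^ 2) := by
      have := habs.1
      rwa [div_le_iff₀ (by positivity)] at this
    have h7 : 0 ≤ |2 * (K : ℝ)| := abs_nonneg _
    rw [div_le_div_iff₀ (by positivity) hpi]
    calc |2 * (K : ℝ)| * |p - q| * Real.pi ≤ |2 * (K : ℝ)| * (|u| * (4 * (N : ℝ) ^ 2)) * Real.pi := by
          apply mul_le_mul_of_nonneg_right _ hpi.le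
          exact mul_le_mul_of_nonneg_left h6 h7
      _ = |2 * (K : ℝ)| * |u| * ((N : ℝ) ^ 2) * (4 * Real.pi) := by ring
      _ ≤ |2 * (K : ℝ)| * |u| * ((N : ℝ) ^ 2) * 13 := by
          apply mul_le_mul_of_nonneg_left (by linarith)
          have := abs_nonneg u
          positivity
      _ = _ := by ring
  linarith

end Pool.Agent.Helper81K1.MQ
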