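import Pool.Agent.Helper81K1.MQ.Near

set_option autoImplicit false

/-!
# The fourth moment of a polynomial supported on an arithmetic progression
-/

namespace Pool.Agent.Helper81K1.MQ

open Finset Pool.Agent.H376R2.MR

/-- the box of the pairs -/
noncomputable def bx (H : ℕ) : Finset (ℤ × ℤ) := Ioo (-(H : ℤ)) H ×ˢ Ioo (-(H : ℤ)) H

theorem card_I (H : ℕ) : (Ioo (-(H : ℤ)) H).card ≤ 2 * H := by
  rw [Int.card_Ioo]
  omega

theorem card_bx (H : ℕ) : ((bx H).card : ℝ) ≤ 4 * (H : ℝ) ^ 2 := by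
  unfold bx
  rw [card_product]
  have h := card_I H
  have h' : ((Ioo (-(H : ℤ)) H).card : ℝ) ≤ 2 * H := by exact_mod_cast h
  push_cast
  have h0 : (0 : ℝ) ≤ ((Ioo (-(H : ℤ)) H).card : ℝ) := Nat.cast_nonneg _
  nlinarith

theorem card_zero (H : ℕ) : (((bx H).filter (fun p => p.1 * p.2 = 0)).card : ℝ) ≤ 4 * (H : ℝ) := by
  classical
  have h1 : (bx H).filter (fun p => p.1 * p.2 = 0) ⊆
      (Ioo (-(H : ℤ)) H).image (fun v => ((0 : ℤ), v)) ∪ (Ioo (-(H : ℤ)) H).image (fun v => (v, (0 : ℤ))) := by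
    intro p hp
    unfold bx at hp
    rw [mem_filter, mem_product] at hp
    rw [mem_union, mem_image, mem_image]
    rcases mul_eq_zero.1 hp.2 with h | h
    · left
      exact ⟨p.2, hp.1.2, Prod.ext h.symm rfl⟩
    · right
      exact ⟨p.1, hp.1.1, Prod.ext rfl h.symm⟩
  have h2 := (card_le_card h1).trans (card_union_le _ _)
  have h3 := card_image_le (s := Ioo (-(H : ℤ)) H) (f := fun v => ((0 : ℤ), v))
  have h4 := card_image_le (s := Ioo (-(H : ℤ)) H) (f := fun v => (v, (0 : ℤ)))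
  have h5 := card_I H
  have h6 : ((bx H).filter (fun p => p.1 * p.2 = 0)).card ≤ 4 * H := by omega
  exact_mod_cast h6

/-- the sum over `s` for the pairs with product zero -/
theorem zero_part (K N k S m : ℕ) (hN : 1 ≤ N) (hNK : N ≤ K) (hk : 1 ≤ k) (hm : N ≤ m) :
    ∑ s ∈ Ioo (-(S : ℤ)) S, wt K N ((k : ℝ) * (s * m)) ≤ 680 * K := by
  classical
  have hK0 : (0 : ℝ) < K := by exact_mod_cast (by omega : 0 < K)
  have hN0 : (0 : ℝ) < N := by exact_mod_cast hN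
  have hk1 : (1 : ℝ) ≤ k := by exact_mod_cast hk
  have hmN : (N : ℝ) ≤ m := by exact_mod_cast hm
  have hNK' : (N : ℝ) ≤ K := by exact_mod_cast hNK
  have hm0 : (0 : ℝ) < m := by linarith
  rw [← sum_filter_add_sum_filter_not _ (fun s : ℤ => s ≠ 0)]
  have h1 : ∑ s ∈ (Ioo (-(S : ℤ)) S).filter (fun s => s ≠ 0), wt K N ((k : ℝ) * (s * m)) ≤
      676 * (K : ℝ) := by
    calc ∑ s ∈ (Ioo (-(S : ℤ)) S).filter (fun s => s ≠ 0), wt K N ((k : ℝ) * (s * m))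
        ≤ ∑ s ∈ (Ioo (-(S : ℤ)) S).filter (fun s => s ≠ 0), 169 * (K : ℝ) * (1 / ((s : ℝ) ^ 2)) := by
          apply sum_le_sum
          intro s hs
          rw [mem_filter] at hs
          have hs0 : (s : ℝ) ≠ 0 := by exact_mod_cast hs.2
          have hs2 : 0 < (s : ℝ) ^ 2 := by positivity
          have h2 : (k : ℝ) * (s * m) ≠ 0 := by positivity
          refine (wt_le_sq K N (by omega) hN _ h2).trans ?_
          rw [mul_one_div, div_le_div_iff₀ (by positivity) hs2]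
          have h3 : (N : ℝ) ^ 2 ≤ (k : ℝ) ^ 2 * (m : ℝ) ^ 2 := by
            rw [← mul_pow]
            apply pow_le_pow_left₀ hN0.le
            nlinarith
          have h4 : (N : ℝ) ^ 2 ≤ (K : ℝ) ^ 2 := pow_le_pow_left₀ hN0.le hNK' 2
          have h5 : (N : ℝ) ^ 4 ≤ (K : ℝ) ^ 2 * ((k : ℝ) ^ 2 * (m : ℝ) ^ 2) := by
            calc (N : ℝ) ^ 4 = (N : ℝ) ^ 2 * (N : ℝ) ^ 2 := by ring
              _ ≤ _ := mul_le_mul h4 h3 (by positivity) (by positivity)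
          calc 169 * (N : ℝ) ^ 4 * (s : ℝ) ^ 2
              ≤ 169 * ((K : ℝ) ^ 2 * ((k : ℝ) ^ 2 * (m : ℝ) ^ 2)) * (s : ℝ) ^ 2 := by
                apply mul_le_mul_of_nonneg_right _ hs2.le
                linarith
            _ = _ := by ring
      _ = 169 * (K : ℝ) * ∑ s ∈ (Ioo (-(S : ℤ)) S).filter (fun s => s ≠ 0), 1 / ((s : ℝ) ^ 2) := by rw [mul_sum]
      _ ≤ 169 * (K : ℝ) * 4 := mul_le_mul_of_nonneg_left (sum_inv_sq S) (by positivity)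
      _ = _ := by ring
  have h2 : ∑ s ∈ (Ioo (-(S : ℤ)) S).filter (fun s => ¬ s ≠ 0), wt K N ((k : ℝ) * (s * m)) ≤ 4 * K := by
    have h3 : (Ioo (-(S : ℤ)) S).filter (fun s => ¬ s ≠ 0) ⊆ {0} := by
      intro s hs
      rw [mem_filter] at hs
      rw [mem_singleton]
      exact not_not.1 hs.2
    calc _ ≤ ∑ s ∈ ({0} : Finset ℤ), wt K N ((k : ℝ) * (s * m)) :=
          sum_le_sum_of_subset_of_nonneg h3 fun _ _ _ => wt_nonneg _ _ _
      _ ≤ 4 * K := by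
          rw [sum_singleton]
          exact wt_le _ _ _
  linarith

/-- the small values of `s` -/
theorem card_small (N k H S m : ℕ) (hN : 1 ≤ N) (hm : N ≤ m) :
    (((Ioo (-(S : ℤ)) S).filter (fun s : ℤ => |(s : ℝ)| * m < 2 * (k : ℝ) * (H : ℝ) ^ 2)).card : ℝ) ≤
      4 * (k : ℝ) * (H : ℝ) ^ 2 / N + 1 := by
  have hN0 : (0 : ℝ) < N := by exact_mod_cast hN
  have hmN : (N : ℝ) ≤ m := by exact_mod_cast hm
  obtain ⟨y, hy⟩ : ∃ y : ℝ, y = 2 * (k : ℝ) * (H : ℝ) ^ 2 / N := ⟨_, rfl⟩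
  have hy0 : 0 ≤ y := by rw [hy]; positivity
  have h1 : (Ioo (-(S : ℤ)) S).filter (fun s : ℤ => |(s : ℝ)| * m < 2 * (k : ℝ) * (H : ℝ) ^ 2) ⊆
      Icc (-(⌊y⌋₊ : ℤ)) ⌊y⌋₊ := by
    intro s hs
    rw [mem_filter] at hs
    rw [mem_Icc]
    have h2 : |(s : ℝ)| ≤ y := by
      rw [hy, le_div_iff₀ hN0]
      have : |(s : ℝ)| * N ≤ |(s : ℝ)| * m := mul_le_mul_of_nonneg_left hmN (abs_nonneg _)
      linarith [hs.2]
    have h3 : s.natAbs ≤ ⌊y⌋₊ := by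
      apply Nat.le_floor
      have : ((s.natAbs : ℕ) : ℝ) = |(s : ℝ)| := by
        rw [Nat.cast_natAbs, Int.cast_abs]
      rw [this]
      exact h2
    omega
  have h2 := card_le_card h1
  rw [Int.card_Icc] at h2
  have h3 : ((Ioo (-(S : ℤ)) S).filter (fun s : ℤ => |(s : ℝ)| * m < 2 * (k : ℝ) * (H : ℝ) ^ 2)).card ≤
      2 * ⌊y⌋₊ + 1 := by omega
  have h4 : (((Ioo (-(S : ℤ)) S).filter (fun s : ℤ => |(s : ℝ)| * m < 2 * (k : ℝ) * (H : ℝ) ^ 2)).card : ℝ) ≤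
      2 * (⌊y⌋₊ : ℝ) + 1 := by exact_mod_cast h3
  have h5 : (⌊y⌋₊ : ℝ) ≤ y := Nat.floor_le hy0
  have h6 : 4 * (k : ℝ) * (H : ℝ) ^ 2 / N = 2 * y := by rw [hy]; ring
  rw [h6]
  linarith

/-- the sum over the near solutions with a given last factor -/
theorem core (K N k H S m : ℕ) (hN : 1 ≤ N) (hNK : N ≤ K) (hk : 1 ≤ k) (hH : 1 ≤ H) (hm : N ≤ m) (D : ℝ)
    (hD : ∀ m ∈ Icc 1 (H ^ 2), (m.divisors.card : ℝ) ≤ D) :
    ∑ s ∈ Ioo (-(S : ℤ)) S, ∑ p ∈ bx H, wt K N ((k : ℝ) * (s * m + k * (p.1 * p.2 : ℤ))) ≤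
      2720 * H * K + (4 * (k : ℝ) * (H : ℝ) ^ 2 / N + 1) *
        (2 * D * (4 * K + 52 * ((N : ℝ) ^ 2 / (k : ℝ) ^ 2) * (1 + Real.log (2 * ((H ^ 2 : ℕ) : ℝ))))) +
        10816 * (H : ℝ) ^ 2 * N / (k : ℝ) ^ 2 := by
  classical
  have hK0 : (0 : ℝ) < K := by exact_mod_cast (by omega : 0 < K)
  have hN0 : (0 : ℝ) < N := by exact_mod_cast hN
  have hk0 : (0 : ℝ) < k := by exact_mod_cast hk
  have hH0 : (0 : ℝ) < H := by exact_mod_cast hH
  have hH1 : (1 : ℝ) ≤ H := by exact_mod_cast hH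
  have hmN : (N : ℝ) ≤ m := by exact_mod_cast hm
  have hNK' : (N : ℝ) ≤ K := by exact_mod_cast hNK
  have hm0 : (0 : ℝ) < m := by linarith
  have hD0 : 0 ≤ D := (Nat.cast_nonneg _).trans (hD 1 (by rw [mem_Icc]; exact ⟨le_rfl, Nat.one_le_pow _ _ hH⟩))
  obtain ⟨R, hR⟩ : ∃ R : ℝ, R = 2 * D * (4 * K + 52 * ((N : ℝ) ^ 2 / (k : ℝ) ^ 2) *
    (1 + Real.log (2 * ((H ^ 2 : ℕ) : ℝ)))) := ⟨_, rfl⟩
  rw [← hR]
  have hlog : 0 ≤ Real.log (2 * ((H ^ 2 : ℕ) : ℝ)) := by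
    apply Real.log_nonneg
    have : (1 : ℝ) ≤ ((H ^ 2 : ℕ) : ℝ) := by exact_mod_cast Nat.one_le_pow _ _ hH
    linarith
  have hR0 : 0 ≤ R := by rw [hR]; positivity
  -- the pairs with product zero
  have hz : ∀ s : ℤ, ∑ p ∈ (bx H).filter (fun p => p.1 * p.2 = 0), wt K N ((k : ℝ) * (s * m + k * (p.1 * p.2 : ℤ))) ≤
      4 * H * wt K N ((k : ℝ) * (s * m)) := by
    intro s
    have h1 : ∑ p ∈ (bx H).filter (fun p => p.1 * p.2 = 0), wt K N ((k : ℝ) * (s * m + k * (p.1 * p.2 : ℤ))) =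
        ((bx H).filter (fun p => p.1 * p.2 = 0)).card * wt K N ((k : ℝ) * (s * m)) := by
      rw [← nsmul_eq_mul, ← sum_const]
      apply sum_congr rfl
      intro p hp
      rw [(mem_filter.1 hp).2]
      simp
    rw [h1]
    exact mul_le_mul_of_nonneg_right (card_zero H) (wt_nonneg _ _ _)
  -- the others
  have hnz : ∀ s : ℤ, ∑ p ∈ (bx H).filter (fun p => ¬ p.1 * p.2 = 0),
      wt K N ((k : ℝ) * (s * m + k * (p.1 * p.2 : ℤ))) ≤
      (if |(s : ℝ)| * m < 2 * (k : ℝ) * (H : ℝ) ^ 2 then R else 0) +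
      (if s ≠ 0 then 2704 * (H : ℝ) ^ 2 * N / (k : ℝ) ^ 2 * (1 / (s : ℝ) ^ 2) else 0) := by
    intro s
    by_cases hs : |(s : ℝ)| * m < 2 * (k : ℝ) * (H : ℝ) ^ 2
    · rw [if_pos hs]
      have h1 := nz H D hD0 hD (fun z => wt K N ((k : ℝ) * (s * m + k * (z : ℤ)))) (fun z => wt_nonneg _ _ _)
      have h2 : ∑ z ∈ Ioo (-((H ^ 2 : ℕ) : ℤ)) (H ^ 2 : ℕ), wt K N ((k : ℝ) * (s * m + k * (z : ℤ))) =
          ∑ z ∈ Ioo (-((H ^ 2 : ℕ) : ℤ)) (H ^ 2 : ℕ), wt K N ((k : ℝ) ^ 2 * (z + s * m / k)) := by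
        apply sum_congr rfl
        intro z _
        congr 1
        field_simp
        ring
      have h3 := row K N k (H ^ 2) (by omega) hN hk (s * m / k)
      have h4 : 0 ≤ (if s ≠ 0 then 2704 * (H : ℝ) ^ 2 * N / (k : ℝ) ^ 2 * (1 / (s : ℝ) ^ 2) else 0) := by
        split_ifs
        · positivity
        · exact le_rfl
      rw [h2] at h1
      have h5 : 2 * D * ∑ z ∈ Ioo (-((H ^ 2 : ℕ) : ℤ)) (H ^ 2 : ℕ), wt K N ((k : ℝ) ^ 2 * (z + s * m / k)) ≤ R := by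
        rw [hR]
        exact mul_le_mul_of_nonneg_left h3 (by positivity)
      have h6 : ∑ p ∈ (bx H).filter (fun p => ¬ p.1 * p.2 = 0),
          wt K N ((k : ℝ) * (s * m + k * (p.1 * p.2 : ℤ))) ≤ R := le_trans h1 h5
      linarith
    · rw [if_neg hs]
      rw [not_lt] at hs
      have hs0 : s ≠ 0 := by
        rintro rfl
        have : (0 : ℝ) < 2 * (k : ℝ) * (H : ℝ) ^ 2 := by positivity
        rw [Int.cast_zero, abs_zero, zero_mul] at hs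
        linarith
      rw [if_pos hs0, zero_add]
      have hsr : (s : ℝ) ≠ 0 := by exact_mod_cast hs0
      have hs2 : 0 < (s : ℝ) ^ 2 := by positivity
      have hsa : 0 < |(s : ℝ)| := abs_pos.2 hsr
      have h1 : ∀ p ∈ (bx H).filter (fun p => ¬ p.1 * p.2 = 0),
          wt K N ((k : ℝ) * (s * m + k * (p.1 * p.2 : ℤ))) ≤ 676 * N / (k : ℝ) ^ 2 * (1 / (s : ℝ) ^ 2) := by
        intro p hp
        rw [mem_filter] at hp
        unfold bx at hp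
        rw [mem_product, mem_Ioo, mem_Ioo] at hp
        have h2 : |p.1| < H := abs_lt.2 hp.1.1
        have h3 : |p.2| < H := abs_lt.2 hp.1.2
        have h4 : |p.1 * p.2| < (H : ℤ) ^ 2 := by
          rw [abs_mul, pow_two]
          exact mul_lt_mul'' h2 h3 (abs_nonneg _) (abs_nonneg _)
        have h5 : |((p.1 * p.2 : ℤ) : ℝ)| ≤ (H : ℝ) ^ 2 := by
          have : ((|p.1 * p.2| : ℤ) : ℝ) < (H : ℝ) ^ 2 := by exact_mod_cast h4
          rw [Int.cast_abs] at this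
          exact this.le
        have h6 : |(s : ℝ)| * m / 2 ≤ |(s : ℝ) * m + k * ((p.1 * p.2 : ℤ) : ℝ)| := by
          have h7 : |(s : ℝ) * m| - |(k : ℝ) * ((p.1 * p.2 : ℤ) : ℝ)| ≤
              |(s : ℝ) * m + k * ((p.1 * p.2 : ℤ) : ℝ)| := by
            have := abs_sub_abs_le_abs_sub ((s : ℝ) * m) (-((k : ℝ) * ((p.1 * p.2 : ℤ) : ℝ)))
            rwa [abs_neg, sub_neg_eq_add] at this
          rw [abs_mul, abs_of_pos hm0, abs_mul, abs_of_pos hk0] at h7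
          have h8 : (k : ℝ) * |((p.1 * p.2 : ℤ) : ℝ)| ≤ k * (H : ℝ) ^ 2 :=
            mul_le_mul_of_nonneg_left h5 hk0.le
          linarith
        have h9 : |(k : ℝ) * (|(s : ℝ)| * m / 2)| ≤ |(k : ℝ) * (s * m + k * ((p.1 * p.2 : ℤ) : ℝ))| := by
          rw [abs_mul, abs_mul (k : ℝ) _]
          apply mul_le_mul_of_nonneg_left _ (abs_nonneg _)
          rw [abs_of_nonneg (by positivity)]
          exact h6
        refine (wt_anti K N _ _ h9).trans ?_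
        refine (wt_le_sq K N (by omega) hN _ (by positivity)).trans ?_
        have h10 : ((k : ℝ) * (|(s : ℝ)| * m / 2)) ^ 2 = (k : ℝ) ^ 2 * (s : ℝ) ^ 2 * (m : ℝ) ^ 2 / 4 := by
          rw [mul_pow, div_pow, mul_pow, sq_abs]
          ring
        rw [h10]
        have h11 : (N : ℝ) ^ 4 ≤ N * (K * (m : ℝ) ^ 2) := by
          calc (N : ℝ) ^ 4 = N * (N * (N : ℝ) ^ 2) := by ring
            _ ≤ N * (K * (m : ℝ) ^ 2) := by
                apply mul_le_mul_of_nonneg_left _ hN0.le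
                exact mul_le_mul hNK' (pow_le_pow_left₀ hN0.le hmN 2) (by positivity) hK0.le
        rw [div_mul_div_comm, div_le_div_iff₀ (by positivity) (by positivity)]
        calc 169 * (N : ℝ) ^ 4 * ((k : ℝ) ^ 2 * (s : ℝ) ^ 2)
            ≤ 169 * (N * (K * (m : ℝ) ^ 2)) * ((k : ℝ) ^ 2 * (s : ℝ) ^ 2) := by
              apply mul_le_mul_of_nonneg_right _ (by positivity)
              linarith
          _ = 676 * N * 1 * (K * ((k : ℝ) ^ 2 * (s : ℝ) ^ 2 * (m : ℝ) ^ 2 / 4)) := by ring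
      refine (sum_le_sum h1).trans ?_
      rw [sum_const, nsmul_eq_mul]
      have h2 : (((bx H).filter (fun p => ¬ p.1 * p.2 = 0)).card : ℝ) ≤ 4 * (H : ℝ) ^ 2 := by
        refine le_trans ?_ (card_bx H)
        exact_mod_cast card_le_card (filter_subset _ _)
      calc (((bx H).filter (fun p => ¬ p.1 * p.2 = 0)).card : ℝ) * (676 * N / (k : ℝ) ^ 2 * (1 / (s : ℝ) ^ 2))
          ≤ 4 * (H : ℝ) ^ 2 * (676 * N / (k : ℝ) ^ 2 * (1 / (s : ℝ) ^ 2)) :=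
            mul_le_mul_of_nonneg_right h2 (by positivity)
        _ = _ := by ring
  have hall : ∀ s ∈ Ioo (-(S : ℤ)) S, ∑ p ∈ bx H, wt K N ((k : ℝ) * (s * m + k * (p.1 * p.2 : ℤ))) ≤
      4 * H * wt K N ((k : ℝ) * (s * m)) +
      ((if |(s : ℝ)| * m < 2 * (k : ℝ) * (H : ℝ) ^ 2 then R else 0) +
      (if s ≠ 0 then 2704 * (H : ℝ) ^ 2 * N / (k : ℝ) ^ 2 * (1 / (s : ℝ) ^ 2) else 0)) := by
    intro s _
    rw [← sum_filter_add_sum_filter_not _ (fun p : ℤ × ℤ => p.1 * p.2 = 0)]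
    exact add_le_add (hz s) (hnz s)
  refine (sum_le_sum hall).trans ?_
  rw [sum_add_distrib, sum_add_distrib, ← mul_sum, ← sum_filter, ← sum_filter, sum_const, nsmul_eq_mul, ← mul_sum]
  have e1 : 4 * (H : ℝ) * ∑ s ∈ Ioo (-(S : ℤ)) S, wt K N ((k : ℝ) * (s * m)) ≤ 2720 * H * K := by
    calc _ ≤ 4 * (H : ℝ) * (680 * K) := mul_le_mul_of_nonneg_left (zero_part K N k S m hN hNK hk hm) (by positivity)
      _ = _ := by ring
  have e2 := mul_le_mul_of_nonneg_right (card_small N k H S m hN hm) hR0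
  have e3 : 2704 * (H : ℝ) ^ 2 * N / (k : ℝ) ^ 2 *
      ∑ s ∈ (Ioo (-(S : ℤ)) S).filter (fun s => s ≠ 0), 1 / ((s : ℝ) ^ 2) ≤
      10816 * (H : ℝ) ^ 2 * N / (k : ℝ) ^ 2 := by
    calc _ ≤ 2704 * (H : ℝ) ^ 2 * N / (k : ℝ) ^ 2 * 4 := mul_le_mul_of_nonneg_left (sum_inv_sq S) (by positivity)
      _ = _ := by ring
  linarith

/-- sums over injective images -/
theorem sum_inj {α β : Type*} [DecidableEq β] (A : Finset α) (B : Finset β) (g : α → β) (F : β → ℝ) (hF : ∀ b, 0 ≤ F b)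
    (hg : ∀ a ∈ A, g a ∈ B) (hinj : ∀ a ∈ A, ∀ a' ∈ A, g a = g a' → a = a') :
    ∑ a ∈ A, F (g a) ≤ ∑ b ∈ B, F b := by
  rw [← sum_image (s := A) (g := g) (f := F) (fun a ha a' ha' h => hinj a ha a' ha' h)]
  apply sum_le_sum_of_subset_of_nonneg
  · intro b hb
    rw [mem_image] at hb
    obtain ⟨a, ha, rfl⟩ := hb
    exact hg a ha
  · intro b _ _
    exact hF b

/-- the sum over all the quadruples -/
theorem quad (K N k H x : ℕ) (hN : 1 ≤ N) (hNK : N ≤ K) (hk : 1 ≤ k) (hH : 1 ≤ H) (hx : N ≤ x) (D : ℝ)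
    (hD : ∀ m ∈ Icc 1 (H ^ 2), (m.divisors.card : ℝ) ≤ D) :
    ∑ b ∈ range H, ∑ d ∈ range H, ∑ a ∈ range H, ∑ c ∈ range H,
      wt K N (((x + k * a : ℕ) : ℝ) * ((x + k * c : ℕ) : ℝ) - ((x + k * b : ℕ) : ℝ) * ((x + k * d : ℕ) : ℝ)) ≤
      H * (2720 * H * K + (4 * (k : ℝ) * (H : ℝ) ^ 2 / N + 1) *
        (2 * D * (4 * K + 52 * ((N : ℝ) ^ 2 / (k : ℝ) ^ 2) * (1 + Real.log (2 * ((H ^ 2 : ℕ) : ℝ))))) +
        10816 * (H : ℝ) ^ 2 * N / (k : ℝ) ^ 2) := by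
  classical
  have hb : ∀ b ∈ range H, ∑ d ∈ range H, ∑ a ∈ range H, ∑ c ∈ range H,
      wt K N (((x + k * a : ℕ) : ℝ) * ((x + k * c : ℕ) : ℝ) - ((x + k * b : ℕ) : ℝ) * ((x + k * d : ℕ) : ℝ)) ≤
      ∑ s ∈ Ioo (-((2 * H : ℕ) : ℤ)) (2 * H : ℕ), ∑ p ∈ bx H,
        wt K N ((k : ℝ) * (s * ((x + k * b : ℕ) : ℝ) + k * (p.1 * p.2 : ℤ))) := by
    intro b hb
    rw [mem_range] at hb
    have h1 : ∑ d ∈ range H, ∑ a ∈ range H, ∑ c ∈ range H,
        wt K N (((x + k * a : ℕ) : ℝ) * ((x + k * c : ℕ) : ℝ) - ((x + k * b : ℕ) : ℝ) * ((x + k * d : ℕ) : ℝ)) =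
        ∑ t ∈ range H ×ˢ (range H ×ˢ range H),
          (fun q : ℤ × (ℤ × ℤ) => wt K N ((k : ℝ) * (q.1 * ((x + k * b : ℕ) : ℝ) + k * (q.2.1 * q.2.2 : ℤ))))
          ((t.2.1 : ℤ) + t.2.2 - b - t.1, ((t.2.1 : ℤ) - b, (t.2.2 : ℤ) - b)) := by
      rw [sum_product]
      apply sum_congr rfl
      intro d _
      rw [sum_product]
      apply sum_congr rfl
      intro a _
      apply sum_congr rfl
      intro c _
      dsimp only
      congr 1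
      push_cast
      ring
    rw [h1]
    have h2 : ∑ s ∈ Ioo (-((2 * H : ℕ) : ℤ)) (2 * H : ℕ), ∑ p ∈ bx H,
        wt K N ((k : ℝ) * (s * ((x + k * b : ℕ) : ℝ) + k * (p.1 * p.2 : ℤ))) =
        ∑ q ∈ Ioo (-((2 * H : ℕ) : ℤ)) (2 * H : ℕ) ×ˢ bx H,
          (fun q : ℤ × (ℤ × ℤ) => wt K N ((k : ℝ) * (q.1 * ((x + k * b : ℕ) : ℝ) + k * (q.2.1 * q.2.2 : ℤ)))) q := by
      rw [sum_product]
    rw [h2]
    refine sum_inj (range H ×ˢ (range H ×ˢ range H)) (Ioo (-((2 * H : ℕ) : ℤ)) (2 * H : ℕ) ×ˢ bx H)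
      (fun t : ℕ × (ℕ × ℕ) => (((t.2.1 : ℤ) + t.2.2 - b - t.1, ((t.2.1 : ℤ) - b, (t.2.2 : ℤ) - b)) : ℤ × (ℤ × ℤ)))
      (fun q : ℤ × (ℤ × ℤ) => wt K N ((k : ℝ) * (q.1 * ((x + k * b : ℕ) : ℝ) + k * (q.2.1 * q.2.2 : ℤ)))) ?_ ?_ ?_
    · intro q
      exact wt_nonneg _ _ _
    · intro t ht
      rw [mem_product, mem_product, mem_range, mem_range, mem_range] at ht
      unfold bx
      rw [mem_product, mem_product, mem_Ioo, mem_Ioo, mem_Ioo]
      dsimp only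
      push_cast
      omega
    · intro t ht t' ht' h
      rw [Prod.mk.injEq, Prod.mk.injEq] at h
      refine Prod.ext ?_ (Prod.ext ?_ ?_) <;> omega
  have hc : ∀ b ∈ range H, ∑ d ∈ range H, ∑ a ∈ range H, ∑ c ∈ range H,
      wt K N (((x + k * a : ℕ) : ℝ) * ((x + k * c : ℕ) : ℝ) - ((x + k * b : ℕ) : ℝ) * ((x + k * d : ℕ) : ℝ)) ≤
      2720 * H * K + (4 * (k : ℝ) * (H : ℝ) ^ 2 / N + 1) *
        (2 * D * (4 * K + 52 * ((N : ℝ) ^ 2 / (k : ℝ) ^ 2) * (1 + Real.log (2 * ((H ^ 2 : ℕ) : ℝ))))) +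
        10816 * (H : ℝ) ^ 2 * N / (k : ℝ) ^ 2 :=
    fun b hb' => (hb b hb').trans (core K N k H (2 * H) (x + k * b) hN hNK hk hH (by omega) D hD)
  refine (sum_le_sum hc).trans ?_
  rw [sum_const, card_range, nsmul_eq_mul]

/-- **The fourth moment** of a polynomial supported on an arithmetic progression. -/
theorem four (K N k H x : ℕ) (hN : 1 ≤ N) (hNK : N ≤ K) (hk : 1 ≤ k) (hH : 1 ≤ H) (hx : N ≤ x)
    (hxH : x + k * (H - 1) ≤ 2 * N) (D : ℝ) (hD : ∀ m ∈ Icc 1 (H ^ 2), (m.divisors.card : ℝ) ≤ D)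
    (c : ℕ → ℂ) (hc : ∀ a, ‖c a‖ ≤ 1) :
    ∑ t ∈ FK K, ‖∑ a ∈ range H, c a * ch t (Real.log ((x + k * a : ℕ) : ℝ))‖ ^ 4 ≤
      2 * (H * (2720 * H * K + (4 * (k : ℝ) * (H : ℝ) ^ 2 / N + 1) *
        (2 * D * (4 * K + 52 * ((N : ℝ) ^ 2 / (k : ℝ) ^ 2) * (1 + Real.log (2 * ((H ^ 2 : ℕ) : ℝ))))) +
        10816 * (H : ℝ) ^ 2 * N / (k : ℝ) ^ 2)) := by
  classical
  have hK : 1 ≤ K := by omega
  obtain ⟨y, hy⟩ : ∃ y : ℕ → ℝ, y = fun a => Real.log ((x + k * a : ℕ) : ℝ) := ⟨_, rfl⟩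
  have hya : ∀ a, Real.log ((x + k * a : ℕ) : ℝ) = y a := fun a => by rw [hy]
  have h1 : ∀ t ∈ FK K, ‖∑ a ∈ range H, c a * ch t (Real.log ((x + k * a : ℕ) : ℝ))‖ ^ 4 =
      ‖∑ p ∈ range H ×ˢ range H, (c p.1 * c p.2) * ch t (y p.1 + y p.2)‖ ^ 2 := by
    intro t _
    have h2 : ∑ p ∈ range H ×ˢ range H, (c p.1 * c p.2) * ch t (y p.1 + y p.2) =
        (∑ a ∈ range H, c a * ch t (Real.log ((x + k * a : ℕ) : ℝ))) ^ 2 := by
      rw [pow_two, sum_mul_sum, sum_product]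
      apply sum_congr rfl
      intro a _
      apply sum_congr rfl
      intro b _
      have h3 : ch t (y a + y b) = ch t (y a) * ch t (y b) := by
        unfold ch
        rw [← Complex.exp_add]
        congr 1
        push_cast
        ring
      rw [h3, hya, hya]
      ring
    rw [h2, norm_pow, ← pow_mul]
  rw [sum_congr rfl h1]
  refine (fam _ _ _ K hK).trans ?_
  apply mul_le_mul_of_nonneg_left _ (by norm_num)
  refine le_trans ?_ (quad K N k H x hN hNK hk hH hx D hD)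
  have h4 : ∑ i ∈ range H ×ˢ range H, ∑ j ∈ range H ×ˢ range H,
      ‖c i.1 * c i.2‖ * ‖c j.1 * c j.2‖ * Fj (2 * K) (y i.1 + y i.2 - (y j.1 + y j.2)) ≤
      ∑ i ∈ range H ×ˢ range H, ∑ j ∈ range H ×ˢ range H,
      wt K N (((x + k * i.1 : ℕ) : ℝ) * ((x + k * i.2 : ℕ) : ℝ) -
        ((x + k * j.1 : ℕ) : ℝ) * ((x + k * j.2 : ℕ) : ℝ)) := by
    apply sum_le_sum
    intro i hi
    apply sum_le_sum
    intro j hj
    rw [mem_product, mem_range, mem_range] at hi hj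
    have hup : ∀ a, a < H → x + k * a ≤ 2 * N := by
      intro a ha
      have : k * a ≤ k * (H - 1) := Nat.mul_le_mul_left _ (by omega)
      omega
    have h5 := Fj_wt K N hK hN (x + k * i.1) (x + k * i.2) (x + k * j.1) (x + k * j.2) (by omega) (hup _ hi.1)
      (by omega) (hup _ hi.2) (by omega) (hup _ hj.1) (by omega) (hup _ hj.2)
    rw [hya, hya, hya, hya] at h5
    have h6 : ‖c i.1 * c i.2‖ ≤ 1 := by
      rw [norm_mul]
      exact mul_le_one₀ (hc _) (norm_nonneg _) (hc _)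
    have h7 : ‖c j.1 * c j.2‖ ≤ 1 := by
      rw [norm_mul]
      exact mul_le_one₀ (hc _) (norm_nonneg _) (hc _)
    have h8 : ‖c i.1 * c i.2‖ * ‖c j.1 * c j.2‖ ≤ 1 := mul_le_one₀ h6 (norm_nonneg _) h7
    have h9 := Fj_nonneg (2 * K) (y i.1 + y i.2 - (y j.1 + y j.2))
    calc ‖c i.1 * c i.2‖ * ‖c j.1 * c j.2‖ * Fj (2 * K) (y i.1 + y i.2 - (y j.1 + y j.2))
        ≤ 1 * Fj (2 * K) (y i.1 + y i.2 - (y j.1 + y j.2)) := mul_le_mul_of_nonneg_right h8 h9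
      _ ≤ _ := by
          rw [one_mul]
          exact h5
  refine h4.trans (le_of_eq ?_)
  rw [sum_comm, sum_product]
  apply sum_congr rfl
  intro b _
  apply sum_congr rfl
  intro d _
  rw [sum_product]

end Pool.Agent.Helper81K1.MQ
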