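import Pool.Agent.Helper81K1.MQ.Lq

set_option autoImplicit false

/-!
# Montgomery's inequality for polynomials supported on an arithmetic progression: the theorem
-/

namespace Pool.Agent.Helper81K1.MQ

open Finset

theorem DD_le (N : ℕ) (b : ℕ → ℂ) (hb : ∀ n, ‖b n‖ ≤ 1) (t : ℕ) : ‖DD N b t‖ ≤ N + 1 := by
  unfold DD
  calc ‖∑ n ∈ Icc N (2 * N), b n * Complex.exp (Complex.I * (t : ℂ) * ((Real.log (n : ℝ) : ℝ) : ℂ))‖
      ≤ ∑ n ∈ Icc N (2 * N), (1 : ℝ) := by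
        apply norm_sum_le_of_le
        intro n _
        rw [norm_mul]
        have h1 : ‖Complex.exp (Complex.I * (t : ℂ) * ((Real.log (n : ℝ) : ℝ) : ℂ))‖ = 1 := by
          have e : Complex.I * (t : ℂ) * ((Real.log (n : ℝ) : ℝ) : ℂ) =
              ((t * Real.log (n : ℝ) : ℝ) : ℂ) * Complex.I := by
            push_cast
            ring
          rw [e, Complex.norm_exp_ofReal_mul_I]
        rw [h1, mul_one]
        exact hb n
    _ = N + 1 := by
        rw [sum_const, Nat.card_Icc, nsmul_eq_mul, mul_one]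
        have : 2 * N + 1 - N = N + 1 := by omega
        rw [this]
        push_cast
        rfl

theorem main (q A : ℝ) (hq : 2 ≤ q) (hA : 1 ≤ A) (ε : ℝ) (hε : 0 < ε) : ∃ K : ℝ, ∀ (N T x k H : ℕ) (β : ℝ),
    1 ≤ N → N ≤ T → (T : ℝ) ≤ (N : ℝ) ^ A → 1 ≤ k → 1 ≤ H → N ≤ x → x + k * (H - 1) ≤ 2 * N → 0 ≤ β →
    (N : ℝ) ^ β ≤ k → (H : ℝ) ≤ 2 * (N : ℝ) ^ th β → ∀ b : ℕ → ℂ, (∀ n, ‖b n‖ ≤ 1) → Sup N x k H b →
    ∑ t ∈ Icc 1 T, ‖DD N b t‖ ^ q ≤ K * (N : ℝ) ^ ε * ((N : ℝ) ^ q + (N : ℝ) ^ (q / 2) * (T : ℝ)) := by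
  obtain ⟨C, hC1, hC⟩ := crit ⌈A⌉₊ ε hε
  have h2q : 1 ≤ (2 : ℝ) ^ q := Real.one_le_rpow (by norm_num) (by linarith)
  refine ⟨2 ^ q * C, ?_⟩
  intro N T x k H β hN hNT hTA hk hH hx hxH hβ0 hβk hHθ b hb1 hb
  have hN0 : (0 : ℝ) < N := by exact_mod_cast (by omega : 0 < N)
  have hN1 : (1 : ℝ) ≤ N := by exact_mod_cast hN
  have hT0 : (0 : ℝ) < T := by exact_mod_cast (by omega : 0 < T)
  have hNε : 1 ≤ (N : ℝ) ^ ε := Real.one_le_rpow hN1 hε.le
  have hNq : 1 ≤ (N : ℝ) ^ q := Real.one_le_rpow hN1 (by linarith)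
  have hNq2 : 1 ≤ (N : ℝ) ^ (q / 2) := Real.one_le_rpow hN1 (by linarith)
  have hK1 : 1 ≤ 2 ^ q * C := by nlinarith
  rcases Nat.lt_or_ge 1 N with hN2 | hN2
  swap
  · -- `N = 1`
    have hN' : N = 1 := by omega
    subst hN'
    have hT1 : T = 1 := by
      have : (T : ℝ) ≤ 1 := by simpa using hTA
      have : T ≤ 1 := by exact_mod_cast this
      omega
    subst hT1
    rw [Icc_self, sum_singleton]
    have h1 := DD_le 1 b hb1 1
    have h2 : ‖DD 1 b 1‖ ^ q ≤ 2 ^ q := by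
      apply Real.rpow_le_rpow (norm_nonneg _) _ (by linarith)
      refine h1.trans ?_
      norm_num
    push_cast
    rw [Real.one_rpow, Real.one_rpow, Real.one_rpow]
    nlinarith
  rcases Nat.lt_or_ge 1 H with hH2 | hH2
  swap
  · -- `H = 1`
    have hH' : H = 1 := by omega
    subst hH'
    have h1 : ∀ t ∈ Icc 1 T, ‖DD N b t‖ ^ q ≤ 1 := by
      intro t _
      rw [DD_eq N x k 1 b hk hx hxH hb, range_one, sum_singleton, norm_mul]
      apply Real.rpow_le_one (by positivity) _ (by linarith)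
      have h2 : ‖Pool.Agent.H376R2.MR.ch (-(t : ℤ)) (Real.log ((x + k * 0 : ℕ) : ℝ))‖ = 1 := by
        unfold Pool.Agent.H376R2.MR.ch
        rw [← Complex.ofReal_neg, Complex.norm_exp_ofReal_mul_I]
      rw [h2, mul_one]
      exact hb1 _
    calc ∑ t ∈ Icc 1 T, ‖DD N b t‖ ^ q ≤ ∑ t ∈ Icc 1 T, (1 : ℝ) := sum_le_sum h1
      _ = 1 * 1 * (1 * T) := by
          rw [sum_const, Nat.card_Icc]
          simp
      _ ≤ (2 ^ q * C) * (N : ℝ) ^ ε * ((N : ℝ) ^ (q / 2) * (T : ℝ)) := by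
          apply mul_le_mul _ _ (by positivity) (by positivity)
          · exact mul_le_mul hK1 hNε (by norm_num) (by linarith)
          · exact mul_le_mul_of_nonneg_right hNq2 hT0.le
      _ ≤ _ := by
          apply mul_le_mul_of_nonneg_left _ (by positivity)
          linarith
  -- the main case
  have hkH1 : k * (H - 1) ≤ N := by omega
  have hkN : k ≤ N := by
    have : k * 1 ≤ k * (H - 1) := Nat.mul_le_mul_left _ (by omega)
    omega
  have hkH : k * H ≤ 2 * N := by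
    have : k * H = k * (H - 1) + k := by
      obtain ⟨H', rfl⟩ : ∃ H', H = H' + 1 := ⟨H - 1, by omega⟩
      rw [Nat.add_sub_cancel]
      ring
    omega
  have hN1' : (1 : ℝ) < N := by exact_mod_cast hN2
  have hβ1 : β ≤ 1 := by
    have h1 : (N : ℝ) ^ β ≤ (N : ℝ) ^ (1 : ℝ) := by
      rw [Real.rpow_one]
      refine hβk.trans ?_
      exact_mod_cast hkN
    exact (Real.rpow_le_rpow_left_iff hN1').1 h1
  obtain ⟨τ, hτ⟩ : ∃ τ : ℝ, τ = Real.logb N T := ⟨_, rfl⟩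
  have hTτ : (T : ℝ) = (N : ℝ) ^ τ := by
    rw [hτ, Real.rpow_logb hN0 hN1'.ne' hT0]
  have hτA : τ ≤ A := by
    rw [hTτ] at hTA
    exact (Real.rpow_le_rpow_left_iff hN1').1 hTA
  have hτ1 : 1 ≤ τ := by
    have h1 : (N : ℝ) ^ (1 : ℝ) ≤ (N : ℝ) ^ τ := by
      rw [Real.rpow_one, ← hTτ]
      exact_mod_cast hNT
    exact (Real.rpow_le_rpow_left_iff hN1').1 h1
  have hcr := hC N T x k H b β τ hN2 hNT hk hH hx hxH hkH hβ0 hβ1 hβk hHθ hb1 hb hTτ
    (hτA.trans (Nat.le_ceil A))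
  have hC0 : 0 < C := by linarith
  rcases le_total q (2 * τ) with hqτ | hqτ
  · obtain ⟨μ, hμ⟩ : ∃ μ : ℝ, μ = q / (2 * τ) := ⟨_, rfl⟩
    have hμ0 : 0 < μ := by rw [hμ]; positivity
    have hμ1 : μ ≤ 1 := by
      rw [hμ, div_le_one (by linarith)]
      exact hqτ
    have hμτ : μ * (2 * τ) = q := by
      rw [hμ]
      field_simp
    have h1 := holder (Icc 1 T) (fun t => ‖DD N b t‖) (fun t => norm_nonneg _) 0 (2 * τ) μ le_rfl
      (by linarith) hμ0.le hμ1 (by rw [hμτ]; linarith)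
    have h2 : (1 - μ) * 0 + μ * (2 * τ) = q := by rw [hμτ]; ring
    rw [h2] at h1
    have h3 : ∑ t ∈ Icc 1 T, ‖DD N b t‖ ^ (0 : ℝ) = T := by
      simp
    rw [h3] at h1
    have h4 : (∑ t ∈ Icc 1 T, ‖DD N b t‖ ^ (2 * τ)) ^ μ ≤ C * (N : ℝ) ^ ε * (N : ℝ) ^ q := by
      calc (∑ t ∈ Icc 1 T, ‖DD N b t‖ ^ (2 * τ)) ^ μ ≤ (C * (N : ℝ) ^ ε * (N : ℝ) ^ (2 * τ)) ^ μ := by
            apply Real.rpow_le_rpow _ hcr hμ0.le
            exact sum_nonneg fun t _ => Real.rpow_nonneg (norm_nonneg _) _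
        _ = (C * (N : ℝ) ^ ε) ^ μ * (N : ℝ) ^ q := by
            rw [Real.mul_rpow (by positivity) (by positivity), ← Real.rpow_mul hN0.le]
            congr 2
            linarith
        _ ≤ C * (N : ℝ) ^ ε * (N : ℝ) ^ q := by
            apply mul_le_mul_of_nonneg_right _ (by positivity)
            have h5 : 1 ≤ C * (N : ℝ) ^ ε := by nlinarith
            calc (C * (N : ℝ) ^ ε) ^ μ ≤ (C * (N : ℝ) ^ ε) ^ (1 : ℝ) :=
                  Real.rpow_le_rpow_of_exponent_le h5 hμ1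
              _ = _ := Real.rpow_one _
    have h6 : (T : ℝ) ^ (1 - μ) * (N : ℝ) ^ q = (N : ℝ) ^ (q / 2) * T := by
      rw [hTτ, ← Real.rpow_mul hN0.le, ← Real.rpow_add hN0, ← Real.rpow_add hN0]
      congr 1
      linarith
    calc ∑ t ∈ Icc 1 T, ‖DD N b t‖ ^ q ≤ (T : ℝ) ^ (1 - μ) * (C * (N : ℝ) ^ ε * (N : ℝ) ^ q) := by
          refine h1.trans ?_
          exact mul_le_mul_of_nonneg_left h4 (by positivity)
      _ = C * (N : ℝ) ^ ε * ((T : ℝ) ^ (1 - μ) * (N : ℝ) ^ q) := by ring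
      _ = C * (N : ℝ) ^ ε * ((N : ℝ) ^ (q / 2) * T) := by rw [h6]
      _ ≤ (2 ^ q * C) * (N : ℝ) ^ ε * ((N : ℝ) ^ q + (N : ℝ) ^ (q / 2) * (T : ℝ)) := by
          apply mul_le_mul _ _ (by positivity) (by positivity)
          · apply mul_le_mul_of_nonneg_right _ (by positivity)
            nlinarith
          · linarith
  · have h1 : ∀ t ∈ Icc 1 T, ‖DD N b t‖ ^ q ≤ (2 * (N : ℝ)) ^ (q - 2 * τ) * ‖DD N b t‖ ^ (2 * τ) := by
      intro t _
      have h2 : ‖DD N b t‖ ≤ 2 * N := by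
        have := DD_le N b hb1 t
        linarith
      rcases (norm_nonneg (DD N b t)).lt_or_eq with h3 | h3
      · have e : q = (q - 2 * τ) + 2 * τ := by ring
        conv_lhs => rw [e]
        rw [Real.rpow_add h3]
        apply mul_le_mul_of_nonneg_right _ (by positivity)
        exact Real.rpow_le_rpow h3.le h2 (by linarith)
      · rw [← h3, Real.zero_rpow (by linarith), Real.zero_rpow (by linarith), mul_zero]
    calc ∑ t ∈ Icc 1 T, ‖DD N b t‖ ^ q ≤ ∑ t ∈ Icc 1 T, (2 * (N : ℝ)) ^ (q - 2 * τ) * ‖DD N b t‖ ^ (2 * τ) :=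
          sum_le_sum h1
      _ = (2 * (N : ℝ)) ^ (q - 2 * τ) * ∑ t ∈ Icc 1 T, ‖DD N b t‖ ^ (2 * τ) := by rw [mul_sum]
      _ ≤ (2 * (N : ℝ)) ^ (q - 2 * τ) * (C * (N : ℝ) ^ ε * (N : ℝ) ^ (2 * τ)) :=
          mul_le_mul_of_nonneg_left hcr (by positivity)
      _ = (2 : ℝ) ^ (q - 2 * τ) * C * (N : ℝ) ^ ε * (N : ℝ) ^ q := by
          have e : q = (q - 2 * τ) + 2 * τ := by ring
          have e2 : (N : ℝ) ^ q = (N : ℝ) ^ (q - 2 * τ) * (N : ℝ) ^ (2 * τ) := by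
            rw [← Real.rpow_add hN0]
            congr 1
          rw [Real.mul_rpow (by norm_num) hN0.le, e2]
          ring
      _ ≤ (2 ^ q * C) * (N : ℝ) ^ ε * ((N : ℝ) ^ q + (N : ℝ) ^ (q / 2) * (T : ℝ)) := by
          have h5 : (2 : ℝ) ^ (q - 2 * τ) ≤ 2 ^ q :=
            Real.rpow_le_rpow_of_exponent_le (by norm_num) (by linarith)
          apply mul_le_mul _ _ (by positivity) (by positivity)
          · apply mul_le_mul_of_nonneg_right _ (by positivity)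
            exact mul_le_mul_of_nonneg_right h5 hC0.le
          · have : 0 ≤ (N : ℝ) ^ (q / 2) * (T : ℝ) := by positivity
            linarith

end Pool.Agent.Helper81K1.MQ
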