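import Pool.Agent.Helper81K1.MQ.Four
import Pool.Agent.Y959.Smp.Mo

set_option autoImplicit false

/-!
# Moments of polynomials supported on an arithmetic progression
-/

namespace Pool.Agent.Helper81K1.MQ

open Finset Pool.Agent.H376R2.MR
open Pool.Agent.TH705.DL (ph)

/-- the polynomial of the problem -/
noncomputable def DD (N : ℕ) (b : ℕ → ℂ) (t : ℕ) : ℂ :=
  ∑ n ∈ Icc N (2 * N), b n * Complex.exp (Complex.I * (t : ℂ) * ((Real.log (n : ℝ) : ℝ) : ℂ))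

/-- `b` is supported on the progression `x + k a`, `a < H` -/
def Sup (N x k H : ℕ) (b : ℕ → ℂ) : Prop := ∀ n ∈ Icc N (2 * N), b n ≠ 0 → ∃ a < H, n = x + k * a

theorem DD_eq (N x k H : ℕ) (b : ℕ → ℂ) (hk : 1 ≤ k) (hx : N ≤ x) (hxH : x + k * (H - 1) ≤ 2 * N)
    (hb : Sup N x k H b) (t : ℕ) :
    DD N b t = ∑ a ∈ range H, b (x + k * a) * ch (-(t : ℤ)) (Real.log ((x + k * a : ℕ) : ℝ)) := by
  classical
  have h1 : (range H).image (fun a => x + k * a) ⊆ Icc N (2 * N) := by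
    intro n hn
    rw [mem_image] at hn
    obtain ⟨a, ha, rfl⟩ := hn
    rw [mem_range] at ha
    rw [mem_Icc]
    have : k * a ≤ k * (H - 1) := Nat.mul_le_mul_left _ (by omega)
    omega
  unfold DD
  rw [← sum_subset h1]
  · rw [sum_image]
    · apply sum_congr rfl
      intro a _
      congr 1
      unfold ch
      congr 1
      push_cast
      ring
    · intro a _ a' _ h
      have h2 : k * a = k * a' := by
        have : x + k * a = x + k * a' := h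
        omega
      exact Nat.eq_of_mul_eq_mul_left (by omega) h2
  · intro n hn hn'
    have : b n = 0 := by
      by_contra h0
      obtain ⟨a, ha, hna⟩ := hb n hn h0
      apply hn'
      rw [mem_image]
      exact ⟨a, mem_range.2 ha, hna.symm⟩
    rw [this, zero_mul]

theorem DD_DP (N : ℕ) (hN : 1 ≤ N) (b : ℕ → ℂ) (t : ℕ) :
    DD N b t = Pool.Agent.TH705.DL.DP (2 * N) (fun n => if n ∈ Icc N (2 * N) then b n else 0) (t : ℝ) := by
  unfold DD Pool.Agent.TH705.DL.DP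
  have h1 : Icc N (2 * N) ⊆ Icc 1 (2 * N) := Icc_subset_Icc_left hN
  rw [← sum_subset h1]
  · apply sum_congr rfl
    intro n hn
    dsimp only
    rw [if_pos hn]
    unfold ph
    push_cast
    rfl
  · intro n _ hn'
    dsimp only
    rw [if_neg hn', zero_mul]

theorem l2 (N x k H : ℕ) (b : ℕ → ℂ) (hb1 : ∀ n, ‖b n‖ ≤ 1) (hb : Sup N x k H b) :
    ∑ n ∈ Icc 1 (2 * N), ‖(if n ∈ Icc N (2 * N) then b n else 0 : ℂ)‖ ^ 2 ≤ H := by
  classical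
  calc ∑ n ∈ Icc 1 (2 * N), ‖(if n ∈ Icc N (2 * N) then b n else 0 : ℂ)‖ ^ 2
      ≤ ∑ n ∈ (range H).image (fun a => x + k * a), (1 : ℝ) := by
        have h1 : ∀ n ∈ Icc 1 (2 * N), ‖(if n ∈ Icc N (2 * N) then b n else 0 : ℂ)‖ ^ 2 ≤
            if n ∈ (range H).image (fun a => x + k * a) then 1 else 0 := by
          intro n _
          by_cases h : n ∈ Icc N (2 * N)
          · rw [if_pos h]
            by_cases h0 : b n = 0
            · rw [h0, norm_zero]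
              split_ifs <;> norm_num
            · obtain ⟨a, ha, hna⟩ := hb n h h0
              rw [if_pos (mem_image.2 ⟨a, mem_range.2 ha, hna.symm⟩)]
              exact pow_le_one₀ (norm_nonneg _) (hb1 n)
          · rw [if_neg h, norm_zero]
            split_ifs <;> norm_num
        refine (sum_le_sum h1).trans ?_
        rw [← sum_filter]
        apply sum_le_sum_of_subset_of_nonneg
        · intro n hn
          exact (mem_filter.1 hn).2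
        · intro _ _ _
          norm_num
    _ ≤ H := by
        rw [sum_const, nsmul_eq_mul, mul_one]
        have := card_image_le (s := range H) (f := fun a => x + k * a)
        rw [card_range] at this
        exact_mod_cast this

/-- the even moments -/
theorem mom (δ : ℝ) (hδ : 0 < δ) (κ : ℕ) : ∃ C : ℝ, 1 ≤ C ∧ ∀ (N T x k H : ℕ) (b : ℕ → ℂ), 1 ≤ N → 1 ≤ T →
    (∀ n, ‖b n‖ ≤ 1) → Sup N x k H b →
    ∑ t ∈ Icc 1 T, ‖DD N b t‖ ^ (2 * κ) ≤ C * (N : ℝ) ^ δ * (T + (N : ℝ) ^ κ) * (H : ℝ) ^ κ := by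
  obtain ⟨K1, hK1, h⟩ := Pool.Agent.Y959.Smp.consts δ hδ κ
  refine ⟨K1 * 2 ^ δ * 2 ^ κ + 1, by
    have : 0 ≤ K1 * 2 ^ δ * 2 ^ κ := by positivity
    linarith, fun N T x k H b hN hT hb1 hb => ?_⟩
  have hN0 : (0 : ℝ) < N := by exact_mod_cast hN
  obtain ⟨D, hD, hD2⟩ := h (2 * N) (by omega)
  obtain ⟨a, ha⟩ : ∃ a : ℕ → ℂ, a = fun n => if n ∈ Icc N (2 * N) then b n else 0 := ⟨_, rfl⟩
  have h1 := Pool.Agent.Y959.Smp.momentL (2 * N) (by omega) a κ D hD T hT 1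
  have h2 : ∑ t ∈ Icc 1 T, ‖DD N b t‖ ^ (2 * κ) = ∑ u : Fin T, ‖Pool.Agent.TH705.DL.DP (2 * N) a (1 + (u : ℕ))‖ ^ (2 * κ) := by
    rw [Fin.sum_univ_eq_sum_range (fun u => ‖Pool.Agent.TH705.DL.DP (2 * N) a (1 + (u : ℕ))‖ ^ (2 * κ)) T,
      ← Ico_add_one_right_eq_Icc, sum_Ico_eq_sum_range, Nat.add_sub_cancel]
    apply sum_congr rfl
    intro u _
    rw [DD_DP N hN, ha]
    push_cast
    rfl
  rw [h2]
  refine h1.trans ?_
  have h3 := hD2 (T : ℝ) (Nat.cast_nonneg _)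
  have h4 : (∑ n ∈ Icc 1 (2 * N), ‖a n‖ ^ 2) ^ κ ≤ (H : ℝ) ^ κ := by
    apply pow_le_pow_left₀ (sum_nonneg fun _ _ => by positivity)
    rw [ha]
    exact l2 N x k H b hb1 hb
  have hlog : 0 ≤ Real.log (((2 * N : ℕ) : ℝ) ^ κ) := by
    apply Real.log_nonneg
    apply one_le_pow₀
    exact_mod_cast (by omega : 1 ≤ 2 * N)
  have hD0 : 0 ≤ D := (Nat.cast_nonneg _).trans (hD 1 (by rw [mem_Icc]; exact ⟨le_rfl, Nat.one_le_pow _ _ (by omega)⟩))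
  calc (2 + Real.log (((2 * N : ℕ) : ℝ) ^ κ) ^ 2) *
        (T + 4 * ((2 * N : ℕ) : ℝ) ^ κ * (1 + Real.log (((2 * N : ℕ) : ℝ) ^ κ))) *
        (D ^ κ * (∑ n ∈ Icc 1 (2 * N), ‖a n‖ ^ 2) ^ κ)
      = ((2 + Real.log (((2 * N : ℕ) : ℝ) ^ κ) ^ 2) *
        (T + 4 * ((2 * N : ℕ) : ℝ) ^ κ * (1 + Real.log (((2 * N : ℕ) : ℝ) ^ κ))) * D ^ κ) *
        (∑ n ∈ Icc 1 (2 * N), ‖a n‖ ^ 2) ^ κ := by ring
    _ ≤ (K1 * ((2 * N : ℕ) : ℝ) ^ δ * (T + ((2 * N : ℕ) : ℝ) ^ κ)) * (H : ℝ) ^ κ := by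
        apply mul_le_mul h3 h4 (pow_nonneg (sum_nonneg fun _ _ => by positivity) _)
        positivity
    _ ≤ (K1 * 2 ^ δ * 2 ^ κ * (N : ℝ) ^ δ * (T + (N : ℝ) ^ κ)) * (H : ℝ) ^ κ := by
        apply mul_le_mul_of_nonneg_right _ (by positivity)
        push_cast
        rw [Real.mul_rpow (by norm_num) hN0.le, mul_pow]
        have h5 : (T : ℝ) + 2 ^ κ * (N : ℝ) ^ κ ≤ 2 ^ κ * (T + (N : ℝ) ^ κ) := by
          have : (1 : ℝ) ≤ 2 ^ κ := one_le_pow₀ (by norm_num)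
          have hT0 : (0 : ℝ) ≤ T := Nat.cast_nonneg _
          nlinarith
        calc K1 * (2 ^ δ * (N : ℝ) ^ δ) * (T + 2 ^ κ * (N : ℝ) ^ κ)
            ≤ K1 * (2 ^ δ * (N : ℝ) ^ δ) * (2 ^ κ * (T + (N : ℝ) ^ κ)) :=
              mul_le_mul_of_nonneg_left h5 (by positivity)
          _ = _ := by ring
    _ ≤ _ := by
        apply mul_le_mul_of_nonneg_right _ (by positivity)
        apply mul_le_mul_of_nonneg_right _ (by positivity)
        apply mul_le_mul_of_nonneg_right _ (by positivity)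
        linarith

/-- the fourth moment -/
theorem mom4 (δ : ℝ) (hδ : 0 < δ) : ∃ C : ℝ, 1 ≤ C ∧ ∀ (N T x k H : ℕ) (b : ℕ → ℂ), 1 ≤ N → N ≤ T → 1 ≤ k → 1 ≤ H →
    N ≤ x → x + k * (H - 1) ≤ 2 * N → k * H ≤ 2 * N → (∀ n, ‖b n‖ ≤ 1) → Sup N x k H b →
    ∑ t ∈ Icc 1 T, ‖DD N b t‖ ^ 4 ≤
      C * (N : ℝ) ^ δ * (T * (H : ℝ) ^ 2 + N * (H : ℝ) ^ 3 / k + (N : ℝ) ^ 2 * H / (k : ℝ) ^ 2) := by
  obtain ⟨K1, hK1, h⟩ := Pool.Agent.Y959.Smp.consts δ hδ 2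
  refine ⟨40000 * (K1 * 2 ^ δ + 1), by
    have : 0 ≤ K1 * 2 ^ δ := by positivity
    linarith, fun N T x k H b hN hNT hk hH hx hxH hkH hb1 hb => ?_⟩
  have hN0 : (0 : ℝ) < N := by exact_mod_cast hN
  have hN1 : (1 : ℝ) ≤ N := by exact_mod_cast hN
  have hk0 : (0 : ℝ) < k := by exact_mod_cast hk
  have hk1 : (1 : ℝ) ≤ k := by exact_mod_cast hk
  have hH0 : (0 : ℝ) < H := by exact_mod_cast hH
  have hH1 : (1 : ℝ) ≤ H := by exact_mod_cast hH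
  have hT0 : (0 : ℝ) < T := by exact_mod_cast (by omega : 0 < T)
  have hT1 : (1 : ℝ) ≤ T := by exact_mod_cast (by omega : 1 ≤ T)
  obtain ⟨D, hD, hD2⟩ := h (2 * N) (by omega)
  have hH2 : H ≤ 2 * N := le_trans (by nlinarith) hkH
  have hD1 : (1 : ℝ) ≤ D := by
    have := hD 1 (by rw [mem_Icc]; exact ⟨le_rfl, Nat.one_le_pow _ _ (by omega)⟩)
    simpa using this
  have hD' : ∀ m ∈ Icc 1 (H ^ 2), (m.divisors.card : ℝ) ≤ D := by
    intro m hm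
    rw [mem_Icc] at hm
    apply hD
    rw [mem_Icc]
    exact ⟨hm.1, hm.2.trans (Nat.pow_le_pow_left hH2 2)⟩
  have h1 := four (T + 1) N k H x hN (by omega) hk hH hx hxH D hD' (fun a => b (x + k * a)) (fun a => hb1 _)
  have h2 : ∑ t ∈ Icc 1 T, ‖DD N b t‖ ^ 4 ≤
      ∑ t ∈ FK (T + 1), ‖∑ a ∈ range H, b (x + k * a) * ch t (Real.log ((x + k * a : ℕ) : ℝ))‖ ^ 4 := by
    have h3 : ∑ t ∈ Icc 1 T, ‖DD N b t‖ ^ 4 = ∑ t ∈ Icc 1 T,
        (fun s : ℤ => ‖∑ a ∈ range H, b (x + k * a) * ch s (Real.log ((x + k * a : ℕ) : ℝ))‖ ^ 4) (-(t : ℤ)) := by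
      apply sum_congr rfl
      intro t _
      rw [DD_eq N x k H b hk hx hxH hb]
    rw [h3]
    refine sum_inj (Icc 1 T) (FK (T + 1)) (fun t : ℕ => -(t : ℤ))
      (fun s : ℤ => ‖∑ a ∈ range H, b (x + k * a) * ch s (Real.log ((x + k * a : ℕ) : ℝ))‖ ^ 4) ?_ ?_ ?_
    · intro s
      positivity
    · intro t ht
      rw [mem_Icc] at ht
      unfold FK
      rw [mem_Ioo]
      push_cast
      omega
    · intro t _ t' _ h
      simpa using h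
  refine h2.trans (h1.trans ?_)
  -- the logarithm and the divisor bound
  obtain ⟨L, hL⟩ : ∃ L : ℝ, L = 1 + Real.log (2 * ((H ^ 2 : ℕ) : ℝ)) := ⟨_, rfl⟩
  rw [← hL]
  have hL1 : 1 ≤ L := by
    rw [hL]
    have : 0 ≤ Real.log (2 * ((H ^ 2 : ℕ) : ℝ)) := by
      apply Real.log_nonneg
      push_cast
      nlinarith
    linarith
  have hDL : D * L ≤ K1 * 2 ^ δ * (N : ℝ) ^ δ + 1 := by
    obtain ⟨M, hM⟩ : ∃ M : ℝ, M = Real.log (((2 * N : ℕ) : ℝ) ^ 2) := ⟨_, rfl⟩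
    have h4 := hD2 0 le_rfl
    rw [← hM] at h4
    have hM1 : 1 ≤ M := by
      rw [hM]
      push_cast
      have h5 : (4 : ℝ) ≤ (2 * N) ^ 2 := by nlinarith
      have h6 : Real.log 4 ≤ Real.log ((2 * (N : ℝ)) ^ 2) := Real.log_le_log (by norm_num) h5
      have h7 : (1 : ℝ) ≤ Real.log 4 := by
        rw [show (4 : ℝ) = 2 ^ 2 by norm_num, Real.log_pow]
        have := Real.log_two_gt_d9
        push_cast
        linarith
      linarith
    have hLM : L ≤ 3 * M := by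
      rw [hL, hM]
      have h5 : (2 : ℝ) * ((H ^ 2 : ℕ) : ℝ) ≤ 2 * ((2 * N : ℕ) : ℝ) ^ 2 := by
        have : ((H : ℕ) : ℝ) ≤ ((2 * N : ℕ) : ℝ) := by exact_mod_cast hH2
        push_cast at this ⊢
        have := pow_le_pow_left₀ hH0.le this 2
        linarith
      have h6 := Real.log_le_log (by positivity) h5
      have h6' : Real.log (2 * ((2 * N : ℕ) : ℝ) ^ 2) = Real.log 2 + Real.log (((2 * N : ℕ) : ℝ) ^ 2) :=
        Real.log_mul (by norm_num) (by positivity)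
      have h7 : Real.log 2 ≤ 1 := by
        have := Real.log_two_lt_d9
        linarith
      rw [hM] at hM1
      linarith
    have hN2 : (0 : ℝ) < ((2 * N : ℕ) : ℝ) ^ 2 := by positivity
    have h5 : (2 + M ^ 2) * (0 + 4 * ((2 * N : ℕ) : ℝ) ^ 2 * (1 + M)) * D ^ 2 ≤
        K1 * ((2 * N : ℕ) : ℝ) ^ δ * (0 + ((2 * N : ℕ) : ℝ) ^ 2) := h4
    have h6 : (2 + M ^ 2) * (4 * (1 + M)) * D ^ 2 ≤ K1 * ((2 * N : ℕ) : ℝ) ^ δ := by
      have h7 : ((2 + M ^ 2) * (4 * (1 + M)) * D ^ 2) * ((2 * N : ℕ) : ℝ) ^ 2 ≤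
          (K1 * ((2 * N : ℕ) : ℝ) ^ δ) * ((2 * N : ℕ) : ℝ) ^ 2 := by
        calc _ = (2 + M ^ 2) * (0 + 4 * ((2 * N : ℕ) : ℝ) ^ 2 * (1 + M)) * D ^ 2 := by ring
          _ ≤ _ := h5
          _ = _ := by ring
      exact le_of_mul_le_mul_right h7 hN2
    have h8 : D * L ≤ (2 + M ^ 2) * (4 * (1 + M)) * D ^ 2 := by
      have e1 : D * L ≤ D * (3 * M) := mul_le_mul_of_nonneg_left hLM (by linarith)
      have e2 : D * (3 * M) ≤ D ^ 2 * (3 * M) := by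
        apply mul_le_mul_of_nonneg_right _ (by linarith)
        nlinarith
      have e3 : D ^ 2 * (3 * M) ≤ D ^ 2 * ((2 + M ^ 2) * (4 * (1 + M))) := by
        apply mul_le_mul_of_nonneg_left _ (by positivity)
        nlinarith [sq_nonneg M, mul_nonneg (by linarith : (0:ℝ) ≤ M) (sq_nonneg M)]
      linarith
    have h9 : K1 * ((2 * N : ℕ) : ℝ) ^ δ = K1 * 2 ^ δ * (N : ℝ) ^ δ := by
      push_cast
      rw [Real.mul_rpow (by norm_num) hN0.le]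
      ring
    rw [h9] at h6
    linarith
  have hNδ : 1 ≤ (N : ℝ) ^ δ := Real.one_le_rpow hN1 hδ.le
  have hDL2 : D * L ≤ (K1 * 2 ^ δ + 1) * (N : ℝ) ^ δ := by nlinarith
  have hDL1 : 1 ≤ D * L := one_le_mul_of_one_le_of_one_le hD1 hL1
  have hDL0 : D ≤ D * L := le_mul_of_one_le_right (by linarith) hL1
  obtain ⟨G, hG⟩ : ∃ G : ℝ, G = D * L := ⟨_, rfl⟩
  rw [← hG] at hDL2 hDL1 hDL0
  -- the main inequality
  have hkHr : (k : ℝ) * H ≤ 2 * N := by exact_mod_cast hkH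
  have hc : 4 * (k : ℝ) * (H : ℝ) ^ 2 / N + 1 ≤ 9 * H := by
    have : 4 * (k : ℝ) * (H : ℝ) ^ 2 / N ≤ 8 * H := by
      rw [div_le_iff₀ hN0]
      nlinarith
    linarith
  have hc0 : 0 ≤ 4 * (k : ℝ) * (H : ℝ) ^ 2 / N + 1 := by positivity
  obtain ⟨c, hcd⟩ : ∃ c : ℝ, c = 4 * (k : ℝ) * (H : ℝ) ^ 2 / N + 1 := ⟨_, rfl⟩
  rw [← hcd] at hc hc0 ⊢
  obtain ⟨X, hX⟩ : ∃ X : ℝ, X = T * (H : ℝ) ^ 2 := ⟨_, rfl⟩
  obtain ⟨Y, hY⟩ : ∃ Y : ℝ, Y = N * (H : ℝ) ^ 3 / k := ⟨_, rfl⟩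
  obtain ⟨Z, hZ⟩ : ∃ Z : ℝ, Z = (N : ℝ) ^ 2 * H / (k : ℝ) ^ 2 := ⟨_, rfl⟩
  rw [← hX, ← hY, ← hZ]
  have hX0 : 0 ≤ X := by rw [hX]; positivity
  have hY0 : 0 ≤ Y := by rw [hY]; positivity
  have hZ0 : 0 ≤ Z := by rw [hZ]; positivity
  have t1 : (H : ℝ) * (2720 * H * ((T + 1 : ℕ) : ℝ)) ≤ 5440 * X := by
    rw [hX]
    push_cast
    have : (H : ℝ) ^ 2 * (T + 1) ≤ (H : ℝ) ^ 2 * (2 * T) := mul_le_mul_of_nonneg_left (by linarith) (by positivity)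
    nlinarith
  have t2 : (H : ℝ) * (c * (2 * D * (4 * ((T + 1 : ℕ) : ℝ)))) ≤ 144 * G * X := by
    calc (H : ℝ) * (c * (2 * D * (4 * ((T + 1 : ℕ) : ℝ)))) ≤ (H : ℝ) * ((9 * H) * (2 * G * (4 * (2 * T)))) := by
          apply mul_le_mul_of_nonneg_left _ hH0.le
          apply mul_le_mul hc _ (by positivity) (by positivity)
          apply mul_le_mul (by linarith) _ (by positivity) (by linarith)
          push_cast
          linarith
      _ = _ := by rw [hX]; ring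
  have t3 : (H : ℝ) * (c * (2 * D * (52 * ((N : ℝ) ^ 2 / (k : ℝ) ^ 2) * L))) ≤ 104 * G * (4 * Y + Z) := by
    have e1 : (H : ℝ) * (c * (2 * D * (52 * ((N : ℝ) ^ 2 / (k : ℝ) ^ 2) * L))) =
        104 * G * (c * (H * ((N : ℝ) ^ 2 / (k : ℝ) ^ 2))) := by rw [hG]; ring
    have e2 : c * (H * ((N : ℝ) ^ 2 / (k : ℝ) ^ 2)) = 4 * Y + Z := by
      rw [hcd, hY, hZ]
      field_simp
    rw [e1, e2]
  have t4 : (H : ℝ) * (10816 * (H : ℝ) ^ 2 * N / (k : ℝ) ^ 2) ≤ 10816 * Y := by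
    rw [hY]
    calc (H : ℝ) * (10816 * (H : ℝ) ^ 2 * N / (k : ℝ) ^ 2) = 10816 * (N * (H : ℝ) ^ 3 / (k : ℝ) ^ 2) := by ring
      _ ≤ 10816 * (N * (H : ℝ) ^ 3 / k) := by
          apply mul_le_mul_of_nonneg_left _ (by norm_num)
          apply div_le_div_of_nonneg_left (by positivity) hk0
          nlinarith
  calc 2 * (H * (2720 * H * ((T + 1 : ℕ) : ℝ) + c *
        (2 * D * (4 * ((T + 1 : ℕ) : ℝ) + 52 * ((N : ℝ) ^ 2 / (k : ℝ) ^ 2) * L)) +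
        10816 * (H : ℝ) ^ 2 * N / (k : ℝ) ^ 2))
      = 2 * ((H : ℝ) * (2720 * H * ((T + 1 : ℕ) : ℝ)) + (H : ℝ) * (c * (2 * D * (4 * ((T + 1 : ℕ) : ℝ)))) +
        (H : ℝ) * (c * (2 * D * (52 * ((N : ℝ) ^ 2 / (k : ℝ) ^ 2) * L))) +
        (H : ℝ) * (10816 * (H : ℝ) ^ 2 * N / (k : ℝ) ^ 2)) := by ring
    _ ≤ 2 * (5440 * X + 144 * G * X + 104 * G * (4 * Y + Z) + 10816 * Y) := by linarith
    _ ≤ 40000 * (G * (X + Y + Z)) := by
        have g1 : X ≤ G * X := le_mul_of_one_le_left hX0 hDL1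
        have g2 : Y ≤ G * Y := le_mul_of_one_le_left hY0 hDL1
        have g3 : 0 ≤ G * X := by positivity
        have g4 : 0 ≤ G * Y := by positivity
        have g5 : 0 ≤ G * Z := by positivity
        nlinarith
    _ ≤ 40000 * (((K1 * 2 ^ δ + 1) * (N : ℝ) ^ δ) * (X + Y + Z)) := by
        apply mul_le_mul_of_nonneg_left _ (by norm_num)
        exact mul_le_mul_of_nonneg_right hDL2 (by linarith)
    _ = _ := by ring

end Pool.Agent.Helper81K1.MQ
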