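import Pool.Agent.Helper81K1.MQ.Fam

set_option autoImplicit false

/-!
# Nearly equal products of two elements of an arithmetic progression
-/

namespace Pool.Agent.Helper81K1.MQ

open Finset

/-- the sum of `1 / s ^ 2` -/
theorem sum_inv_sq (S : ℕ) : ∑ s ∈ (Ioo (-(S : ℤ)) S).filter (fun s => s ≠ 0), 1 / ((s : ℝ) ^ 2) ≤ 4 := by
  classical
  have h0 : ∀ M : ℕ, ∑ j ∈ Ico 1 M, 1 / ((j : ℝ) ^ 2) ≤ 2 := by
    intro M
    rcases Nat.lt_or_ge 1 M with h | h
    · have h1 := sum_Ioo_inv_sq_le (α := ℝ) 0 M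
      have h2 : Ioo 0 M = Ico 1 M := by ext j; simp only [mem_Ioo, mem_Ico]; omega
      rw [h2] at h1
      have h3 : ∑ j ∈ Ico 1 M, 1 / ((j : ℝ) ^ 2) = ∑ j ∈ Ico 1 M, ((j : ℝ) ^ 2)⁻¹ :=
        sum_congr rfl fun j _ => by rw [one_div]
      rw [h3]
      refine h1.trans ?_
      norm_num
    · rw [Ico_eq_empty (by omega), sum_empty]
      norm_num
  have h1 : (Ioo (-(S : ℤ)) S).filter (fun s => s ≠ 0) ⊆
      (Ico 1 S).image (fun j : ℕ => (j : ℤ)) ∪ (Ico 1 S).image (fun j : ℕ => -(j : ℤ)) := by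
    intro s hs
    rw [mem_filter, mem_Ioo] at hs
    rw [mem_union, mem_image, mem_image]
    rcases lt_or_gt_of_ne hs.2 with h | h
    · right
      exact ⟨(-s).toNat, by rw [mem_Ico]; omega, by omega⟩
    · left
      exact ⟨s.toNat, by rw [mem_Ico]; omega, by omega⟩
  calc ∑ s ∈ (Ioo (-(S : ℤ)) S).filter (fun s => s ≠ 0), 1 / ((s : ℝ) ^ 2)
      ≤ ∑ s ∈ (Ico 1 S).image (fun j : ℕ => (j : ℤ)) ∪ (Ico 1 S).image (fun j : ℕ => -(j : ℤ)),
          1 / ((s : ℝ) ^ 2) := sum_le_sum_of_subset_of_nonneg h1 fun _ _ _ => by positivity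
    _ ≤ ∑ s ∈ (Ico 1 S).image (fun j : ℕ => (j : ℤ)), 1 / ((s : ℝ) ^ 2) +
        ∑ s ∈ (Ico 1 S).image (fun j : ℕ => -(j : ℤ)), 1 / ((s : ℝ) ^ 2) := by
          rw [← sum_union_inter]
          have : 0 ≤ ∑ s ∈ (Ico 1 S).image (fun j : ℕ => (j : ℤ)) ∩ (Ico 1 S).image (fun j : ℕ => -(j : ℤ)),
            1 / ((s : ℝ) ^ 2) := sum_nonneg fun _ _ => by positivity
          linarith
    _ = ∑ j ∈ Ico 1 S, 1 / ((j : ℝ) ^ 2) + ∑ j ∈ Ico 1 S, 1 / ((j : ℝ) ^ 2) := by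
          rw [sum_image (fun a _ b _ h => by simpa using h), sum_image (fun a _ b _ h => by simpa using h)]
          refine congrArg₂ (· + ·) (sum_congr rfl fun j _ => ?_) (sum_congr rfl fun j _ => ?_) <;> simp
    _ ≤ 4 := by linarith [h0 S]

/-- the sum of `1 / |s|` -/
theorem sum_inv (S : ℕ) : ∑ s ∈ (Ioo (-(S : ℤ)) S).filter (fun s => s ≠ 0), 1 / |(s : ℝ)| ≤
    2 * (1 + Real.log S) := by
  classical
  have h0 : ∑ j ∈ Ico 1 S, 1 / (j : ℝ) ≤ 1 + Real.log S := by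
    rcases Nat.eq_zero_or_pos S with h | h
    · subst h
      simp
    · have h1 := harmonic_le_one_add_log S
      have h2 : ((harmonic S : ℚ) : ℝ) = ∑ j ∈ Icc 1 S, 1 / (j : ℝ) := by
        rw [harmonic_eq_sum_Icc]
        push_cast
        exact sum_congr rfl fun j _ => by rw [one_div]
      rw [h2] at h1
      refine le_trans ?_ h1
      apply sum_le_sum_of_subset_of_nonneg
      · intro j hj
        rw [mem_Ico] at hj
        rw [mem_Icc]
        omega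
      · intro j _ _
        positivity
  have h1 : (Ioo (-(S : ℤ)) S).filter (fun s => s ≠ 0) ⊆
      (Ico 1 S).image (fun j : ℕ => (j : ℤ)) ∪ (Ico 1 S).image (fun j : ℕ => -(j : ℤ)) := by
    intro s hs
    rw [mem_filter, mem_Ioo] at hs
    rw [mem_union, mem_image, mem_image]
    rcases lt_or_gt_of_ne hs.2 with h | h
    · right
      exact ⟨(-s).toNat, by rw [mem_Ico]; omega, by omega⟩
    · left
      exact ⟨s.toNat, by rw [mem_Ico]; omega, by omega⟩
  calc ∑ s ∈ (Ioo (-(S : ℤ)) S).filter (fun s => s ≠ 0), 1 / |(s : ℝ)|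
      ≤ ∑ s ∈ (Ico 1 S).image (fun j : ℕ => (j : ℤ)) ∪ (Ico 1 S).image (fun j : ℕ => -(j : ℤ)),
          1 / |(s : ℝ)| := sum_le_sum_of_subset_of_nonneg h1 fun _ _ _ => by positivity
    _ ≤ ∑ s ∈ (Ico 1 S).image (fun j : ℕ => (j : ℤ)), 1 / |(s : ℝ)| +
        ∑ s ∈ (Ico 1 S).image (fun j : ℕ => -(j : ℤ)), 1 / |(s : ℝ)| := by
          rw [← sum_union_inter]
          have : 0 ≤ ∑ s ∈ (Ico 1 S).image (fun j : ℕ => (j : ℤ)) ∩ (Ico 1 S).image (fun j : ℕ => -(j : ℤ)),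
            1 / |(s : ℝ)| := sum_nonneg fun _ _ => by positivity
          linarith
    _ = ∑ j ∈ Ico 1 S, 1 / (j : ℝ) + ∑ j ∈ Ico 1 S, 1 / (j : ℝ) := by
          rw [sum_image (fun a _ b _ h => by simpa using h), sum_image (fun a _ b _ h => by simpa using h)]
          congr 1
          · apply sum_congr rfl
            intro j _
            push_cast
            rw [abs_of_nonneg (Nat.cast_nonneg j)]
          · apply sum_congr rfl
            intro j _
            push_cast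
            rw [abs_neg, abs_of_nonneg (Nat.cast_nonneg j)]
    _ ≤ 2 * (1 + Real.log S) := by linarith

/-- the products at the distance `k² |z + c|` -/
theorem row (K N k Z : ℕ) (hK : 1 ≤ K) (hN : 1 ≤ N) (hk : 1 ≤ k) (c : ℝ) :
    ∑ z ∈ Ioo (-(Z : ℤ)) Z, wt K N ((k : ℝ) ^ 2 * (z + c)) ≤
      4 * K + 52 * ((N : ℝ) ^ 2 / (k : ℝ) ^ 2) * (1 + Real.log (2 * Z)) := by
  classical
  have hK0 : (0 : ℝ) < K := by exact_mod_cast hK
  have hN0 : (0 : ℝ) < N := by exact_mod_cast hN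
  have hk0 : (0 : ℝ) < k := by exact_mod_cast hk
  rcases (Ioo (-(Z : ℤ)) Z).eq_empty_or_nonempty with he | hne
  · rw [he, sum_empty]
    rcases Nat.eq_zero_or_pos Z with hZ | hZ
    · subst hZ
      simp
      positivity
    · have : 0 ≤ Real.log (2 * (Z : ℝ)) := Real.log_nonneg (by
        have : (1 : ℝ) ≤ Z := by exact_mod_cast hZ
        linarith)
      positivity
  obtain ⟨z₀, hz₀, hmin⟩ := exists_min_image (Ioo (-(Z : ℤ)) Z) (fun z => |(z : ℝ) + c|) hne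
  rw [← add_sum_erase _ _ hz₀]
  apply add_le_add (wt_le _ _ _)
  have h1 : ∀ z ∈ (Ioo (-(Z : ℤ)) Z).erase z₀, wt K N ((k : ℝ) ^ 2 * (z + c)) ≤
      26 * ((N : ℝ) ^ 2 / (k : ℝ) ^ 2) * (1 / |((z - z₀ : ℤ) : ℝ)|) := by
    intro z hz
    rw [mem_erase] at hz
    have h2 := hmin z hz.2
    have h3 : |((z - z₀ : ℤ) : ℝ)| ≤ 2 * |(z : ℝ) + c| := by
      push_cast
      calc |(z : ℝ) - z₀| = |((z : ℝ) + c) - (z₀ + c)| := by ring_nf
        _ ≤ |(z : ℝ) + c| + |(z₀ : ℝ) + c| := abs_sub _ _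
        _ ≤ _ := by linarith
    have h4 : 0 < |((z - z₀ : ℤ) : ℝ)| := by
      rw [abs_pos]
      exact_mod_cast sub_ne_zero.2 hz.1
    have h5 : 0 < |(z : ℝ) + c| := by linarith
    have h6 : (k : ℝ) ^ 2 * (z + c) ≠ 0 := by
      apply mul_ne_zero (by positivity)
      exact abs_pos.1 h5
    refine (wt_le_inv K N hK hN _ h6).trans ?_
    rw [abs_mul, abs_of_pos (show (0 : ℝ) < (k : ℝ) ^ 2 by positivity)]
    calc 13 * (N : ℝ) ^ 2 / ((k : ℝ) ^ 2 * |(z : ℝ) + c|)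
        ≤ 13 * (N : ℝ) ^ 2 / ((k : ℝ) ^ 2 * (|((z - z₀ : ℤ) : ℝ)| / 2)) := by
          apply div_le_div_of_nonneg_left (by positivity) (by positivity)
          apply mul_le_mul_of_nonneg_left _ (by positivity)
          linarith
      _ = _ := by
          field_simp
          ring
  refine (sum_le_sum h1).trans ?_
  rw [← mul_sum]
  have h7 : ∑ z ∈ (Ioo (-(Z : ℤ)) Z).erase z₀, 1 / |((z - z₀ : ℤ) : ℝ)| ≤
      ∑ s ∈ (Ioo (-((2 * Z : ℕ) : ℤ)) (2 * Z : ℕ)).filter (fun s => s ≠ 0), 1 / |(s : ℝ)| := by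
    have h8 : ∑ z ∈ (Ioo (-(Z : ℤ)) Z).erase z₀, 1 / |((z - z₀ : ℤ) : ℝ)| =
        ∑ s ∈ ((Ioo (-(Z : ℤ)) Z).erase z₀).image (fun z => z - z₀), 1 / |(s : ℝ)| := by
      rw [sum_image]
      intro a _ b _ h
      simpa using h
    rw [h8]
    apply sum_le_sum_of_subset_of_nonneg
    · intro s hs
      rw [mem_image] at hs
      obtain ⟨z, hz, rfl⟩ := hs
      rw [mem_erase, mem_Ioo] at hz
      rw [mem_Ioo] at hz₀
      rw [mem_filter, mem_Ioo]
      push_cast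
      refine ⟨⟨by omega, by omega⟩, sub_ne_zero.2 hz.1⟩
    · intro s _ _
      positivity
  have h9 := sum_inv (2 * Z)
  push_cast at h9 h7
  calc 26 * ((N : ℝ) ^ 2 / (k : ℝ) ^ 2) * ∑ z ∈ (Ioo (-(Z : ℤ)) Z).erase z₀, 1 / |((z - z₀ : ℤ) : ℝ)|
      ≤ 26 * ((N : ℝ) ^ 2 / (k : ℝ) ^ 2) * (2 * (1 + Real.log (2 * Z))) := by
        apply mul_le_mul_of_nonneg_left _ (by positivity)
        push_cast
        exact h7.trans h9
    _ = _ := by ring

/-- the number of the factorisations of an integer -/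
theorem fib (H : ℕ) (z : ℤ) (hz : z ≠ 0) :
    (((Ioo (-(H : ℤ)) H ×ˢ Ioo (-(H : ℤ)) H).filter (fun p => p.1 * p.2 = z)).card) ≤
      2 * z.natAbs.divisors.card := by
  classical
  have h1 : (((Ioo (-(H : ℤ)) H ×ˢ Ioo (-(H : ℤ)) H).filter (fun p => p.1 * p.2 = z)).card) ≤
      (z.natAbs.divisors ×ˢ (univ : Finset Bool)).card := by
    apply card_le_card_of_injOn (fun p : ℤ × ℤ => (p.1.natAbs, decide (0 < p.1)))
    · intro p hp
      rw [mem_coe, mem_filter] at hp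
      rw [mem_coe, mem_product]
      refine ⟨?_, mem_univ _⟩
      rw [Nat.mem_divisors]
      refine ⟨?_, Int.natAbs_ne_zero.2 hz⟩
      exact Int.natAbs_dvd_natAbs.2 ⟨p.2, hp.2.symm⟩
    · intro p hp q hq h
      rw [mem_coe, mem_filter] at hp hq
      have hp1 : p.1 ≠ 0 := by
        rintro h0
        apply hz
        rw [← hp.2, h0, zero_mul]
      have hq1 : q.1 ≠ 0 := by
        rintro h0
        apply hz
        rw [← hq.2, h0, zero_mul]
      rw [Prod.mk.injEq, decide_eq_decide] at h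
      have h2 : p.1 = q.1 := by omega
      have h3 : p.1 * p.2 = p.1 * q.2 := by rw [hp.2, h2, hq.2]
      exact Prod.ext h2 (mul_left_cancel₀ hp1 h3)
  rw [card_product, card_univ, Fintype.card_bool] at h1
  linarith

/-- the pairs with a nonzero product -/
theorem nz (H : ℕ) (D : ℝ) (hD0 : 0 ≤ D) (hD : ∀ m ∈ Icc 1 (H ^ 2), (m.divisors.card : ℝ) ≤ D) (F : ℤ → ℝ) (hF : ∀ z, 0 ≤ F z) :
    ∑ p ∈ (Ioo (-(H : ℤ)) H ×ˢ Ioo (-(H : ℤ)) H).filter (fun p => p.1 * p.2 ≠ 0), F (p.1 * p.2) ≤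
      2 * D * ∑ z ∈ Ioo (-((H ^ 2 : ℕ) : ℤ)) (H ^ 2 : ℕ), F z := by
  classical
  obtain ⟨B, hB⟩ : ∃ B, B = (Ioo (-(H : ℤ)) H ×ˢ Ioo (-(H : ℤ)) H).filter (fun p => p.1 * p.2 ≠ 0) := ⟨_, rfl⟩
  rw [← hB]
  have hmaps : ∀ p ∈ B, p.1 * p.2 ∈ (Ioo (-((H ^ 2 : ℕ) : ℤ)) (H ^ 2 : ℕ)).filter (fun z => z ≠ 0) := by
    intro p hp
    rw [hB, mem_filter, mem_product, mem_Ioo, mem_Ioo] at hp
    rw [mem_filter, mem_Ioo]
    refine ⟨?_, hp.2⟩
    have h1 : |p.1| < H := abs_lt.2 hp.1.1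
    have h2 : |p.2| < H := abs_lt.2 hp.1.2
    have h3 : |p.1 * p.2| < (H : ℤ) ^ 2 := by
      rw [abs_mul, pow_two]
      exact mul_lt_mul'' h1 h2 (abs_nonneg _) (abs_nonneg _)
    push_cast
    exact abs_lt.1 h3
  rw [← sum_fiberwise_of_maps_to hmaps]
  calc ∑ z ∈ (Ioo (-((H ^ 2 : ℕ) : ℤ)) (H ^ 2 : ℕ)).filter (fun z => z ≠ 0),
        ∑ p ∈ B.filter (fun p => p.1 * p.2 = z), F (p.1 * p.2)
      ≤ ∑ z ∈ (Ioo (-((H ^ 2 : ℕ) : ℤ)) (H ^ 2 : ℕ)).filter (fun z => z ≠ 0), 2 * D * F z := by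
        apply sum_le_sum
        intro z hz
        rw [mem_filter, mem_Ioo] at hz
        have h1 : ∑ p ∈ B.filter (fun p => p.1 * p.2 = z), F (p.1 * p.2) =
            (B.filter (fun p => p.1 * p.2 = z)).card * F z := by
          rw [← nsmul_eq_mul, ← sum_const]
          apply sum_congr rfl
          intro p hp
          rw [(mem_filter.1 hp).2]
        rw [h1]
        apply mul_le_mul_of_nonneg_right _ (hF z)
        have h2 : (B.filter (fun p => p.1 * p.2 = z)).card ≤ 2 * z.natAbs.divisors.card := by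
          refine le_trans (card_le_card ?_) (fib H z hz.2)
          rw [hB]
          intro p hp
          rw [mem_filter, mem_filter] at hp
          rw [mem_filter]
          exact ⟨hp.1.1, hp.2⟩
        have h3 := hD z.natAbs (by
          rw [mem_Icc]
          obtain ⟨⟨ha, hb⟩, hc⟩ := hz
          push_cast at ha hb
          constructor
          · omega
          · have : (z.natAbs : ℤ) ≤ (H : ℤ) ^ 2 := by
              rw [Int.natCast_natAbs]
              exact abs_le.2 ⟨by linarith, by linarith⟩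
            exact_mod_cast this)
        have h4 : ((B.filter (fun p => p.1 * p.2 = z)).card : ℝ) ≤ 2 * (z.natAbs.divisors.card : ℝ) := by
          exact_mod_cast h2
        linarith
    _ ≤ ∑ z ∈ Ioo (-((H ^ 2 : ℕ) : ℤ)) (H ^ 2 : ℕ), 2 * D * F z := by
        apply sum_le_sum_of_subset_of_nonneg (filter_subset _ _)
        intro z _ _
        have := hF z
        positivity
    _ = _ := by rw [mul_sum]

end Pool.Agent.Helper81K1.MQ
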